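import Mathlib

set_option autoImplicit false

/-!
Linear forms, subalgebras generated by linear forms, and non-zero-divisors modulo ideals generated
by elements of such subalgebras.
-/

namespace Pool.Agent.Helper12_D3

open MvPolynomial

/-- The linear form with coefficient vector `v`. -/
noncomputable def lin {σ F : Type} [Fintype σ] [CommRing F] :
    (σ → F) →ₗ[F] MvPolynomial σ F where
  toFun v := ∑ s, C (v s) * X s
  map_add' v w := by
    simp only [Pi.add_apply, C_add, add_mul, Finset.sum_add_distrib]
  map_smul' a v := by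
    simp only [Pi.smul_apply, smul_eq_mul, C_mul, RingHom.id_apply, Finset.smul_sum, smul_eq_C_mul,
      mul_assoc]

lemma lin_apply {σ F : Type} [Fintype σ] [CommRing F] (v : σ → F) :
    lin v = ∑ s, C (v s) * X s := rfl

/-- Image of a linear form under the algebra map given on variables. -/
lemma aeval_lin {σ F : Type} [Fintype σ] [CommRing F] {A : Type} [CommRing A] [Algebra F A]
    (f : σ → A) (v : σ → F) :
    aeval f (lin v) = ∑ s, algebraMap F A (v s) * f s := by
  rw [lin_apply, map_sum]
  apply Finset.sum_congr rfl
  intro s _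
  rw [map_mul, aeval_X, aeval_C]

variable {σ F : Type} [Fintype σ] [Field F]

/-- The subalgebra generated by the linear forms with coefficient vectors in `W`. -/
noncomputable def gen (W : Submodule F (σ → F)) : Subalgebra F (MvPolynomial σ F) :=
  Algebra.adjoin F (lin '' (W : Set (σ → F)))

lemma lin_mem_gen {W : Submodule F (σ → F)} {v : σ → F} (hv : v ∈ W) : lin v ∈ gen W :=
  Algebra.subset_adjoin ⟨v, hv, rfl⟩

lemma gen_mono {W W' : Submodule F (σ → F)} (h : W ≤ W') : gen W ≤ gen W' :=
  Algebra.adjoin_mono (Set.image_mono h)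

/-- An algebra map agreeing with another one on the generators agrees on `gen W`. -/
lemma eq_on_gen {W : Submodule F (σ → F)} {A : Type} [CommRing A] [Algebra F A]
    (f g : MvPolynomial σ F →ₐ[F] A) (h : ∀ v ∈ W, f (lin v) = g (lin v)) {x : MvPolynomial σ F}
    (hx : x ∈ gen W) : f x = g x := by
  have h1 : gen W ≤ AlgHom.equalizer f g := by
    apply Algebra.adjoin_le
    rintro _ ⟨v, hv, rfl⟩
    exact h v hv
  exact h1 hx

/-- The substitution `x ↦ x + (Z - lin v) w` with a new variable `Z`. -/
noncomputable def theta (w v : σ → F) : MvPolynomial σ F →ₐ[F] Polynomial (MvPolynomial σ F) :=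
  aeval fun s => Polynomial.C (X s - C (w s) * lin v) + Polynomial.X * Polynomial.C (C (w s))

lemma theta_lin (w v u : σ → F) :
    theta w v (lin u) = Polynomial.C (lin u - C (∑ s, u s * w s) * lin v) +
      Polynomial.X * Polynomial.C (C (∑ s, u s * w s)) := by
  unfold theta
  rw [aeval_lin]
  have h2 : ∀ a : F, algebraMap F (Polynomial (MvPolynomial σ F)) a = Polynomial.C (C a) := by
    intro a; rfl
  simp only [h2, mul_add, Finset.sum_add_distrib]
  have e1 : ∑ s, Polynomial.C (C (u s)) * Polynomial.C (X s - C (w s) * lin v) =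
      Polynomial.C (lin u - C (∑ s, u s * w s) * lin v) := by
    simp only [← Polynomial.C_mul]
    rw [← map_sum]
    congr 1
    simp only [mul_sub, Finset.sum_sub_distrib]
    rw [map_sum, Finset.sum_mul, lin_apply u]
    congr 1
    apply Finset.sum_congr rfl
    intro s _
    rw [map_mul, mul_assoc]
  have e2 : ∑ s, Polynomial.C (C (u s)) * (Polynomial.X * Polynomial.C (C (w s))) =
      Polynomial.X * Polynomial.C (C (∑ s, u s * w s) : MvPolynomial σ F) := by
    rw [map_sum, map_sum, Finset.mul_sum]
    apply Finset.sum_congr rfl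
    intro s _
    rw [map_mul, map_mul, mul_left_comm]
  rw [e1, e2]

lemma theta_of_gen {W : Submodule F (σ → F)} (w v : σ → F) (hw : ∀ u ∈ W, ∑ s, u s * w s = 0)
    {x : MvPolynomial σ F} (hx : x ∈ gen W) : theta w v x = Polynomial.C x := by
  have h1 := eq_on_gen (theta w v) (Algebra.ofId (MvPolynomial σ F) (Polynomial (MvPolynomial σ F))
    |>.restrictScalars F) (W := W) (by
      intro u hu
      rw [theta_lin, hw u hu, C_0, zero_mul, sub_zero, Polynomial.C_0, mul_zero, add_zero]
      rfl) hx
  rw [h1]
  rfl

lemma eval_theta (w v : σ → F) (x : MvPolynomial σ F) :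
    Polynomial.eval (lin v) (theta w v x) = x := by
  have h : ((Polynomial.evalRingHom (lin v)).comp (theta w v : MvPolynomial σ F →+* _)) =
      RingHom.id (MvPolynomial σ F) := by
    apply MvPolynomial.ringHom_ext
    · intro a
      simp only [RingHom.comp_apply, RingHom.id_apply]
      have : (theta w v : MvPolynomial σ F →+* Polynomial (MvPolynomial σ F)) (C a) =
          Polynomial.C (C a) := (theta w v).commutes a
      rw [this]
      simp
    · intro s
      simp only [RingHom.comp_apply, RingHom.id_apply]
      have : (theta w v : MvPolynomial σ F →+* Polynomial (MvPolynomial σ F)) (X s) =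
          Polynomial.C (X s - C (w s) * lin v) + Polynomial.X * Polynomial.C (C (w s)) := by
        change theta w v (X s) = _
        unfold theta
        rw [aeval_X]
      rw [this]
      simp only [Polynomial.coe_evalRingHom, Polynomial.eval_add, Polynomial.eval_C,
        Polynomial.eval_mul, Polynomial.eval_X]
      ring
  have := congrArg (fun f => f x) h
  simpa using this

/-- A polynomial with all coefficients in an ideal has all values in that ideal. -/
lemma eval_mem_of_mem_map {R : Type} [CommRing R] (I : Ideal R) (a : R) {f : Polynomial R}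
    (h : f ∈ Ideal.map Polynomial.C I) : Polynomial.eval a f ∈ I := by
  rw [Ideal.mem_map_C_iff] at h
  rw [Polynomial.eval_eq_sum, Polynomial.sum]
  exact Ideal.sum_mem _ fun n _ => Ideal.mul_mem_right _ _ (h n)

/-- A linear form with coefficient vector outside `W` is a non-zero-divisor modulo an ideal
generated by elements of `gen W`. -/
theorem nzd {W : Submodule F (σ → F)} {G : Set (MvPolynomial σ F)} (hG : ∀ g ∈ G, g ∈ gen W)
    {v : σ → F} (hv : v ∉ W) {x : MvPolynomial σ F} (h : lin v * x ∈ Ideal.span G) :
    x ∈ Ideal.span G := by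
  classical
  obtain ⟨φ, hφ, hφW⟩ := Submodule.exists_le_ker_of_notMem hv
  have hsum : ∀ u : σ → F, φ u = ∑ s, u s * φ (Pi.single s 1) := by
    intro u
    conv_lhs => rw [← Finset.univ_sum_single u]
    rw [map_sum]
    apply Finset.sum_congr rfl
    intro s _
    have : (Pi.single s (u s) : σ → F) = u s • Pi.single s 1 := by
      rw [← Pi.single_smul, smul_eq_mul, mul_one]
    rw [this, map_smul, smul_eq_mul]
  set w : σ → F := fun s => φ (Pi.single s 1) * (φ v)⁻¹ with hw
  have hwsum : ∀ u : σ → F, ∑ s, u s * w s = φ u * (φ v)⁻¹ := by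
    intro u
    rw [hsum u, Finset.sum_mul]
    apply Finset.sum_congr rfl
    intro s _
    rw [hw]; ring
  have hwW : ∀ u ∈ W, ∑ s, u s * w s = 0 := by
    intro u hu
    have : φ u = 0 := hφW hu
    rw [hwsum, this, zero_mul]
  have hwv : ∑ s, v s * w s = 1 := by rw [hwsum, mul_inv_cancel₀ hφ]
  have hth : theta w v (lin v) = Polynomial.X := by
    rw [theta_lin, hwv, C_1, one_mul, sub_self, Polynomial.C_0, Polynomial.C_1, mul_one, zero_add]
  have hmap : Ideal.map (theta w v : MvPolynomial σ F →+* _) (Ideal.span G) ≤
      Ideal.map Polynomial.C (Ideal.span G) := by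
    rw [Ideal.map_span, Ideal.span_le]
    rintro _ ⟨g, hg, rfl⟩
    change theta w v g ∈ _
    rw [theta_of_gen w v hwW (hG g hg)]
    exact Ideal.mem_map_of_mem _ (Ideal.subset_span hg)
  have h1 : Polynomial.X * theta w v x ∈ Ideal.map Polynomial.C (Ideal.span G) := by
    rw [← hth, ← map_mul]
    exact hmap (Ideal.mem_map_of_mem _ h)
  have h2 : theta w v x ∈ Ideal.map Polynomial.C (Ideal.span G) := by
    rw [Ideal.mem_map_C_iff] at h1 ⊢
    intro n
    have := h1 (n + 1)
    rwa [Polynomial.coeff_X_mul] at this
  have h3 := eval_mem_of_mem_map _ (lin v) h2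
  rwa [eval_theta] at h3

end Pool.Agent.Helper12_D3
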