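import Mathlib
import Pool.Agent.Helper12_D3.NZD

set_option autoImplicit false
set_option linter.unusedSectionVars false

/-!
Reduction of the number of variables in a sum of few products of linear forms.
-/

namespace Pool.Agent.Helper12_D3

open MvPolynomial

section hom

variable {σ F : Type} [Fintype σ] [Field F]

/-- The substitution `X_s ↦ X_s Z`. -/
noncomputable def eta : MvPolynomial σ F →ₐ[F] Polynomial (MvPolynomial σ F) :=
  aeval fun s => Polynomial.C (X s) * Polynomial.X

/-- Homogeneity, expressed with `eta`. -/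
def Homog (d : ℕ) (g : MvPolynomial σ F) : Prop := eta g = Polynomial.C g * Polynomial.X ^ d

lemma homog_lin (v : σ → F) : Homog 1 (lin v) := by
  unfold Homog eta
  rw [aeval_lin, lin_apply, map_sum, Finset.sum_mul]
  apply Finset.sum_congr rfl
  intro s _
  have h2 : algebraMap F (Polynomial (MvPolynomial σ F)) (v s) = Polynomial.C (C (v s)) := rfl
  rw [h2, pow_one, Polynomial.C_mul, mul_assoc]

lemma homog_C (a : F) : Homog 0 (C a : MvPolynomial σ F) := by
  unfold Homog
  rw [pow_zero, mul_one]
  exact (eta (σ := σ)).commutes a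

lemma Homog.mul {d e : ℕ} {g h : MvPolynomial σ F} (hg : Homog d g) (hh : Homog e h) :
    Homog (d + e) (g * h) := by
  unfold Homog at *
  rw [map_mul, hg, hh, Polynomial.C_mul, pow_add]
  ring

lemma homog_one : Homog 0 (1 : MvPolynomial σ F) := by
  have := homog_C (σ := σ) (1 : F)
  rwa [C_1] at this

lemma Homog.pow {d : ℕ} {g : MvPolynomial σ F} (hg : Homog d g) (n : ℕ) :
    Homog (n * d) (g ^ n) := by
  induction n with
  | zero => rw [pow_zero, zero_mul]; exact homog_one
  | succ n ih =>
    rw [pow_succ, add_mul, one_mul]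
    exact ih.mul hg

lemma homog_prod {J : Type} (S : Finset J) (v : J → σ → F) (e : J → ℕ) :
    Homog (∑ j ∈ S, e j) (∏ j ∈ S, lin (v j) ^ e j) := by
  classical
  induction S using Finset.induction_on with
  | empty => simpa using homog_one
  | insert j S hj ih =>
    rw [Finset.sum_insert hj, Finset.prod_insert hj]
    have := ((homog_lin (v j)).pow (e j)).mul ih
    rwa [mul_one] at this

lemma homog_sum {ι : Type} (I : Finset ι) (d : ℕ) (g : ι → MvPolynomial σ F)
    (h : ∀ i ∈ I, Homog d (g i)) : Homog d (∑ i ∈ I, g i) := by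
  unfold Homog at *
  rw [map_sum, map_sum, Finset.sum_mul]
  exact Finset.sum_congr rfl h

lemma coeff_zero_eta (h : MvPolynomial σ F) : ∃ a : F, (eta h).coeff 0 = C a := by
  refine ⟨constantCoeff h, ?_⟩
  have h1 : ((Polynomial.constantCoeff).comp ((eta (σ := σ) (F := F) : _ →ₐ[F] _) : MvPolynomial σ F →+* _)) =
      (C : F →+* MvPolynomial σ F).comp constantCoeff := by
    apply MvPolynomial.ringHom_ext
    · intro a
      simp only [RingHom.comp_apply]
      have : ((eta (σ := σ) (F := F) : _ →ₐ[F] _) : MvPolynomial σ F →+* Polynomial (MvPolynomial σ F)) (C a) =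
          Polynomial.C (C a) := (eta (σ := σ)).commutes a
      rw [this]
      simp
    · intro s
      simp only [RingHom.comp_apply]
      have : ((eta (σ := σ) (F := F) : _ →ₐ[F] _) : MvPolynomial σ F →+* Polynomial (MvPolynomial σ F)) (X s) =
          Polynomial.C (X s) * Polynomial.X := by
        change eta (X s) = _
        unfold eta
        rw [aeval_X]
      rw [this]
      simp
  have := congrArg (fun f => f h) h1
  simpa using this

/-- `eta` maps an ideal generated by homogeneous elements into its extension. -/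
lemma eta_mem_map {G : Set (MvPolynomial σ F)} (hG : ∀ g ∈ G, ∃ d, Homog d g)
    {x : MvPolynomial σ F} (hx : x ∈ Ideal.span G) :
    eta x ∈ Ideal.map Polynomial.C (Ideal.span G) := by
  have hmap : Ideal.map ((eta (σ := σ) (F := F) : _ →ₐ[F] _) : MvPolynomial σ F →+* _) (Ideal.span G) ≤
      Ideal.map Polynomial.C (Ideal.span G) := by
    rw [Ideal.map_span, Ideal.span_le]
    rintro _ ⟨g, hg, rfl⟩
    obtain ⟨d, hd⟩ := hG g hg
    change eta g ∈ _
    rw [hd]
    exact Ideal.mul_mem_right _ _ (Ideal.mem_map_of_mem _ (Ideal.subset_span hg))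
  exact hmap (Ideal.mem_map_of_mem _ hx)

lemma nzd_prod {W : Submodule F (σ → F)} {G : Set (MvPolynomial σ F)} (hG : ∀ g ∈ G, g ∈ gen W)
    {J : Type} (S : Finset J) (v : J → σ → F) (e : J → ℕ) (hv : ∀ j ∈ S, v j ∉ W)
    {x : MvPolynomial σ F} (h : (∏ j ∈ S, lin (v j) ^ e j) * x ∈ Ideal.span G) :
    x ∈ Ideal.span G := by
  classical
  induction S using Finset.induction_on with
  | empty => simpa using h
  | insert j S hj ih =>
    apply ih (fun k hk => hv k (Finset.mem_insert_of_mem hk))
    rw [Finset.prod_insert hj, mul_assoc] at h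
    have hpow : ∀ (n : ℕ) (y : MvPolynomial σ F), lin (v j) ^ n * y ∈ Ideal.span G →
        y ∈ Ideal.span G := by
      intro n
      induction n with
      | zero => intro y hy; simpa using hy
      | succ n ihn =>
        intro y hy
        rw [pow_succ, mul_assoc] at hy
        exact nzd hG (hv j (Finset.mem_insert_self j S)) (ihn _ hy)
    exact hpow _ _ h

lemma prod_mem_gen {W : Submodule F (σ → F)} {J : Type} (S : Finset J) (v : J → σ → F) (e : J → ℕ)
    (hv : ∀ j ∈ S, v j ∈ W) : ∏ j ∈ S, lin (v j) ^ e j ∈ gen W :=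
  Subalgebra.prod_mem _ fun j hj => Subalgebra.pow_mem _ (lin_mem_gen (hv j hj)) _

end hom

section crt

variable {σ F J : Type} [Fintype σ] [Field F] [Fintype J] [DecidableEq J]

open scoped Classical in
/-- The part of the product of powers of linear forms with coefficient vector in the class `W`. -/
noncomputable def node (cls : J → Submodule F (σ → F)) (v : J → σ → F) (e : J → ℕ)
    (W : Submodule F (σ → F)) : MvPolynomial σ F :=
  ∏ j with cls j = W, lin (v j) ^ e j

/-- The class of `j` relative to the set `A`. -/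
def cls (v : J → σ → F) (A : Finset J) (j : J) : Submodule F (σ → F) :=
  Submodule.span F (v '' (insert j A : Finset J))

lemma le_cls (v : J → σ → F) (A : Finset J) (j : J) :
    Submodule.span F (v '' A) ≤ cls v A j := by
  apply Submodule.span_mono
  apply Set.image_mono
  rw [Finset.coe_insert]
  exact Set.subset_insert _ _

lemma self_mem_cls (v : J → σ → F) (A : Finset J) (j : J) : v j ∈ cls v A j := by
  apply Submodule.subset_span
  refine ⟨j, ?_, rfl⟩
  rw [Finset.coe_insert]
  exact Set.mem_insert _ _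

lemma mem_cls_iff (v : J → σ → F) (A : Finset J) (j : J) (x : σ → F) :
    x ∈ cls v A j ↔ ∃ a : F, ∃ z ∈ Submodule.span F (v '' A), x = a • v j + z := by
  unfold cls
  rw [Finset.coe_insert, Set.image_insert_eq, Submodule.mem_span_insert]

lemma cls_eq_of_mem (v : J → σ → F) (A : Finset J) (j : J) (h : v j ∈ Submodule.span F (v '' A)) :
    cls v A j = Submodule.span F (v '' A) := by
  apply le_antisymm _ (le_cls v A j)
  intro x hx
  rw [mem_cls_iff] at hx
  obtain ⟨a, z, hz, rfl⟩ := hx
  exact Submodule.add_mem _ (Submodule.smul_mem _ _ h) hz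

/-- Exchange property. -/
lemma notMem_cls (v : J → σ → F) (A : Finset J) (j j' : J) (hne : cls v A j ≠ cls v A j')
    (h : v j' ∉ Submodule.span F (v '' A)) : v j' ∉ cls v A j := by
  intro hm
  apply hne
  rw [mem_cls_iff] at hm
  obtain ⟨a, z, hz, hj'⟩ := hm
  have ha : a ≠ 0 := by
    rintro rfl
    rw [zero_smul, zero_add] at hj'
    rw [hj'] at h
    exact h hz
  have hj : v j ∈ cls v A j' := by
    rw [mem_cls_iff]
    refine ⟨a⁻¹, -(a⁻¹ • z), Submodule.neg_mem _ (Submodule.smul_mem _ _ hz), ?_⟩
    rw [hj', smul_add, smul_smul, inv_mul_cancel₀ ha, one_smul]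
    abel
  apply le_antisymm
  · intro x hx
    rw [mem_cls_iff] at hx
    obtain ⟨b, y, hy, rfl⟩ := hx
    exact Submodule.add_mem _ (Submodule.smul_mem _ _ hj) (le_cls v A j' hy)
  · intro x hx
    rw [mem_cls_iff] at hx
    obtain ⟨b, y, hy, rfl⟩ := hx
    refine Submodule.add_mem _ (Submodule.smul_mem _ _ ?_) (le_cls v A j hy)
    rw [mem_cls_iff]
    exact ⟨a, z, hz, hj'⟩

lemma node_mem_gen (v : J → σ → F) (A : Finset J) (e : J → ℕ) (W : Submodule F (σ → F)) :
    node (cls v A) v e W ∈ gen W := by
  classical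
  unfold node
  apply prod_mem_gen
  intro j hj
  rw [Finset.mem_filter] at hj
  rw [← hj.2]
  exact self_mem_cls v A j

open scoped Classical in
/-- Chinese remaindering over classes. -/
theorem crt (v : J → σ → F) (A : Finset J) (e : J → ℕ) (G : Set (MvPolynomial σ F))
    (hG : ∀ g ∈ G, g ∈ gen (Submodule.span F (v '' A))) (x : MvPolynomial σ F)
    (h0 : x ∈ Ideal.span (insert (node (cls v A) v e (Submodule.span F (v '' A))) G))
    (h : ∀ j, x ∈ Ideal.span (insert (node (cls v A) v e (cls v A j)) G)) :
    x ∈ Ideal.span (insert (∏ j, lin (v j) ^ e j) G) := by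
  set W0 := Submodule.span F (v '' A) with hW0
  set 𝒲 : Finset (Submodule F (σ → F)) := (Finset.univ.image (cls v A)).erase W0 with h𝒲
  have hmem𝒲 : ∀ W ∈ 𝒲, W ≠ W0 ∧ ∃ j, cls v A j = W := by
    intro W hW
    rw [h𝒲, Finset.mem_erase, Finset.mem_image] at hW
    obtain ⟨h1, j, -, hj⟩ := hW
    exact ⟨h1, j, hj⟩
  -- the forms in classes other than `W0`
  have hnot0 : ∀ j, cls v A j ≠ W0 → v j ∉ W0 := by
    intro j hj hv
    exact hj (cls_eq_of_mem v A j hv)
  have step : ∀ 𝒮 : Finset (Submodule F (σ → F)), 𝒮 ⊆ 𝒲 →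
      x ∈ Ideal.span (insert (∏ W ∈ 𝒮, node (cls v A) v e W) G) := by
    intro 𝒮
    induction 𝒮 using Finset.induction_on with
    | empty =>
      intro _
      rw [Finset.prod_empty]
      have : (1 : MvPolynomial σ F) ∈ Ideal.span (insert 1 G) :=
        Ideal.subset_span (Set.mem_insert _ _)
      rw [(Ideal.eq_top_iff_one _).2 this]
      trivial
    | insert W 𝒮 hW ih =>
      intro hsub
      have hsub' : 𝒮 ⊆ 𝒲 := (Finset.subset_insert _ _).trans hsub
      have h1 := ih hsub'
      obtain ⟨hWne, j0, hj0⟩ := hmem𝒲 W (hsub (Finset.mem_insert_self _ _))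
      have h2 := h j0
      rw [hj0] at h2
      rw [Ideal.mem_span_insert] at h1
      obtain ⟨y, g, hg, hx⟩ := h1
      set P := ∏ W ∈ 𝒮, node (cls v A) v e W with hP
      have hle : Ideal.span G ≤ Ideal.span (insert (node (cls v A) v e W) G) :=
        Ideal.span_mono (Set.subset_insert _ _)
      have h3 : P * y ∈ Ideal.span (insert (node (cls v A) v e W) G) := by
        have : P * y = x - g := by rw [hx]; ring
        rw [this]
        exact Ideal.sub_mem _ h2 (hle hg)
      have hGW : ∀ g ∈ insert (node (cls v A) v e W) G, g ∈ gen W := by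
        intro g' hg'
        rcases Set.mem_insert_iff.1 hg' with rfl | hg'
        · exact node_mem_gen v A e W
        · have hWW : W0 ≤ W := by rw [← hj0]; exact le_cls v A j0
          exact gen_mono hWW (hG g' hg')
      have hP' : P = ∏ j ∈ Finset.univ.filter (fun j => cls v A j ∈ 𝒮), lin (v j) ^ e j := by
        rw [hP]
        unfold node
        rw [← Finset.prod_fiberwise_of_maps_to (s := Finset.univ.filter (fun j => cls v A j ∈ 𝒮))
          (t := 𝒮) (g := cls v A) (by
            intro j hj
            exact (Finset.mem_filter.1 hj).2)]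
        apply Finset.prod_congr rfl
        intro W' hW'
        apply Finset.prod_congr _ (fun _ _ => rfl)
        ext j
        simp only [Finset.mem_filter, Finset.mem_univ, true_and]
        constructor
        · intro hj; rw [hj]; exact ⟨hW', rfl⟩
        · intro hj; exact hj.2
      rw [hP'] at h3
      have h4 := nzd_prod hGW _ v e (by
        intro j hj
        have hj' := (Finset.mem_filter.1 hj).2
        have hne : W ≠ cls v A j := by
          intro hWj
          rw [← hWj] at hj'
          exact hW hj'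
        have hj0' := (hmem𝒲 _ (hsub' hj')).1
        rw [← hj0] at hne ⊢
        exact notMem_cls v A j0 j hne (hnot0 j hj0')) h3
      rw [Ideal.mem_span_insert] at h4
      obtain ⟨z, g', hg', hy⟩ := h4
      rw [Finset.prod_insert hW, Ideal.mem_span_insert]
      refine ⟨z, g' * P + g, Ideal.add_mem _ (Ideal.mul_mem_right _ _ hg') hg, ?_⟩
      rw [hx, hy, ← hP]
      ring
  have h1 := step 𝒲 subset_rfl
  set P := ∏ W ∈ 𝒲, node (cls v A) v e W with hP
  rw [Ideal.mem_span_insert] at h1
  obtain ⟨y, g, hg, hx⟩ := h1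
  have hP' : P = ∏ j ∈ Finset.univ.filter (fun j => cls v A j ≠ W0), lin (v j) ^ e j := by
    rw [hP]
    unfold node
    rw [← Finset.prod_fiberwise_of_maps_to (s := Finset.univ.filter (fun j => cls v A j ≠ W0))
      (t := 𝒲) (g := cls v A) (by
        intro j hj
        rw [h𝒲, Finset.mem_erase]
        exact ⟨(Finset.mem_filter.1 hj).2, Finset.mem_image_of_mem _ (Finset.mem_univ _)⟩)]
    apply Finset.prod_congr rfl
    intro W' hW'
    apply Finset.prod_congr _ (fun _ _ => rfl)
    ext j
    simp only [Finset.mem_filter, Finset.mem_univ, true_and]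
    constructor
    · intro hj; rw [hj]; exact ⟨(hmem𝒲 W' hW').1, rfl⟩
    · intro hj; exact hj.2
  have hle : Ideal.span G ≤ Ideal.span (insert (node (cls v A) v e W0) G) :=
    Ideal.span_mono (Set.subset_insert _ _)
  have h3 : P * y ∈ Ideal.span (insert (node (cls v A) v e W0) G) := by
    have : P * y = x - g := by rw [hx]; ring
    rw [this]
    exact Ideal.sub_mem _ h0 (hle hg)
  have hGW : ∀ g ∈ insert (node (cls v A) v e W0) G, g ∈ gen W0 := by
    intro g' hg'
    rcases Set.mem_insert_iff.1 hg' with rfl | hg'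
    · exact node_mem_gen v A e W0
    · exact hG g' hg'
  rw [hP'] at h3
  have h4 := nzd_prod hGW _ v e (by
    intro j hj
    exact hnot0 j (Finset.mem_filter.1 hj).2) h3
  rw [Ideal.mem_span_insert] at h4
  obtain ⟨z, g', hg', hy⟩ := h4
  rw [Ideal.mem_span_insert]
  refine ⟨z, g' * P + g, Ideal.add_mem _ (Ideal.mul_mem_right _ _ hg') hg, ?_⟩
  have hall : ∏ j, lin (v j) ^ e j = node (cls v A) v e W0 * P := by
    rw [hP']
    unfold node
    exact (Finset.prod_filter_mul_prod_filter_not _ _ _).symm
  rw [hx, hy, hall]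
  ring

end crt

section main

variable {σ τ F J ι : Type} [Fintype σ] [Fintype τ] [Field F] [Fintype J] [DecidableEq J]

/-- Certificate preservation. -/
theorem cert (v : J → σ → F) (Ψ : MvPolynomial σ F →ₐ[F] MvPolynomial τ F)
    (M : (σ → F) →ₗ[F] (τ → F)) (hΨ : ∀ u, Ψ (lin u) = lin (M u)) (t : ℕ)
    (hM : ∀ A : Finset J, A.card ≤ t → ∀ u ∈ Submodule.span F (v '' A), M u = 0 → u = 0)
    (d : ℕ) (c : ι → F) (e : ι → J → ℕ) :
    ∀ (q : ℕ) (I : Finset ι) (A : Finset J) (G : Set (MvPolynomial σ F)), I.card = q →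
      q + A.card ≤ t → (∀ i ∈ I, ∑ j, e i j = d) →
      (∀ g ∈ G, g ∈ gen (Submodule.span F (v '' A))) → (∀ g ∈ G, ∃ d, Homog d g) →
      (∑ i ∈ I, C (c i) * ∏ j, lin (v j) ^ e i j) ∉ Ideal.span G →
      Ψ (∑ i ∈ I, C (c i) * ∏ j, lin (v j) ^ e i j) ∉ Ideal.span (Ψ '' G) := by
  classical
  intro q
  induction q with
  | zero =>
    intro I A G hI _ _ _ _ hnot
    rw [Finset.card_eq_zero] at hI
    subst hI
    rw [Finset.sum_empty] at hnot
    exact absurd (Ideal.zero_mem _) hnot
  | succ q ih =>
    intro I A G hI hcard hd hG hH hnot hΨx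
    obtain ⟨i1, hi1⟩ : I.Nonempty := by
      rw [← Finset.card_pos]; omega
    set x := ∑ i ∈ I, C (c i) * ∏ j, lin (v j) ^ e i j with hx
    set W0 := Submodule.span F (v '' (A : Set J)) with hW0
    -- the step with a node
    have key : ∀ (A' : Finset J) (N : MvPolynomial σ F), A ⊆ A' → A'.card ≤ A.card + 1 →
        N ∈ gen (Submodule.span F (v '' A')) → (∃ d, Homog d N) →
        N ∣ ∏ j, lin (v j) ^ e i1 j → x ∈ Ideal.span (insert N G) := by
      intro A' N hAA hA'c hN hNh hdvd
      by_contra hcon
      have hT : C (c i1) * ∏ j, lin (v j) ^ e i1 j ∈ Ideal.span (insert N G) := by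
        apply Ideal.mul_mem_left
        obtain ⟨r, hr⟩ := hdvd
        rw [hr]
        exact Ideal.mul_mem_right _ _ (Ideal.subset_span (Set.mem_insert _ _))
      have hsum : x = C (c i1) * ∏ j, lin (v j) ^ e i1 j +
          ∑ i ∈ I.erase i1, C (c i) * ∏ j, lin (v j) ^ e i j := by
        rw [hx, Finset.add_sum_erase I (fun i => C (c i) * ∏ j, lin (v j) ^ e i j) hi1]
      have hrest : ∑ i ∈ I.erase i1, C (c i) * ∏ j, lin (v j) ^ e i j ∉
          Ideal.span (insert N G) := by
        intro h1
        exact hcon (by rw [hsum]; exact Ideal.add_mem _ hT h1)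
      have h2 := ih (I.erase i1) A' (insert N G) (by rw [Finset.card_erase_of_mem hi1]; omega)
        (by omega) (fun i hi => hd i (Finset.mem_of_mem_erase hi)) (by
          intro g hg
          rcases Set.mem_insert_iff.1 hg with rfl | hg
          · exact hN
          · exact gen_mono (Submodule.span_mono (Set.image_mono (Finset.coe_subset.2 hAA)))
              (hG g hg)) (by
          intro g hg
          rcases Set.mem_insert_iff.1 hg with rfl | hg
          · exact hNh
          · exact hH g hg) hrest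
      apply h2
      have hle : Ideal.span (Ψ '' G) ≤ Ideal.span (Ψ '' insert N G) :=
        Ideal.span_mono (Set.image_mono (Set.subset_insert _ _))
      have hΨT : Ψ (C (c i1) * ∏ j, lin (v j) ^ e i1 j) ∈ Ideal.span (Ψ '' insert N G) := by
        have h3 := Ideal.mem_map_of_mem (Ψ : MvPolynomial σ F →+* MvPolynomial τ F) hT
        rw [Ideal.map_span] at h3
        exact h3
      have h4 : Ψ (∑ i ∈ I.erase i1, C (c i) * ∏ j, lin (v j) ^ e i j) =
          Ψ x - Ψ (C (c i1) * ∏ j, lin (v j) ^ e i1 j) := by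
        rw [hsum, map_add]; ring
      rw [h4]
      exact Ideal.sub_mem _ (hle hΨx) hΨT
    have hnodeh : ∀ W, ∃ d, Homog d (node (cls v A) v (e i1) W) := fun W =>
      ⟨_, homog_prod _ v (e i1)⟩
    have hnoded : ∀ W, node (cls v A) v (e i1) W ∣ ∏ j, lin (v j) ^ e i1 j := by
      intro W
      unfold node
      exact Finset.prod_dvd_prod_of_subset _ _ _ (Finset.filter_subset _ _)
    have hall := crt v A (e i1) G hG x
      (key A _ subset_rfl (by omega) (node_mem_gen v A (e i1) _) (hnodeh _) (hnoded _))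
      (fun j => key (insert j A) _ (Finset.subset_insert _ _) (Finset.card_insert_le _ _)
        (node_mem_gen v A (e i1) _) (hnodeh _) (hnoded _))
    rw [Ideal.mem_span_insert] at hall
    obtain ⟨h, g, hg, hxg⟩ := hall
    -- homogeneous part
    have hxd : Homog d x := by
      apply homog_sum
      intro i hi
      have h1 := (homog_C (σ := σ) (c i)).mul (homog_prod Finset.univ v (e i))
      rwa [zero_add, hd i hi] at h1
    have hpd : Homog d (∏ j, lin (v j) ^ e i1 j) := by
      have h1 := homog_prod Finset.univ v (e i1)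
      rwa [hd i1 hi1] at h1
    obtain ⟨a, ha⟩ := coeff_zero_eta h
    have hx2 : x = C a * ∏ j, lin (v j) ^ e i1 j + (eta g).coeff d := by
      have h1 := congrArg (fun y => (eta y).coeff d) hxg
      simp only [map_add, map_mul, Polynomial.coeff_add] at h1
      unfold Homog at hxd hpd
      rw [hxd, hpd, Polynomial.coeff_C_mul, Polynomial.coeff_X_pow_self, mul_one, ← mul_assoc] at h1
      rw [h1]
      congr 1
      have h2 := Polynomial.coeff_mul_X_pow (eta h * Polynomial.C (∏ j, lin (v j) ^ e i1 j)) d 0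
      rw [zero_add] at h2
      rw [h2, Polynomial.coeff_mul_C, ha]
    have hgd : (eta g).coeff d ∈ Ideal.span G := by
      have h1 := eta_mem_map hH hg
      rw [Ideal.mem_map_C_iff] at h1
      exact h1 d
    set Pr := ∏ j, lin (v j) ^ e i1 j with hPr
    have ha0 : a ≠ 0 := by
      rintro rfl
      rw [C_0, zero_mul, zero_add] at hx2
      exact hnot (by rw [hx2]; exact hgd)
    have hΨg : Ψ ((eta g).coeff d) ∈ Ideal.span (Ψ '' G) := by
      have h3 := Ideal.mem_map_of_mem (Ψ : MvPolynomial σ F →+* MvPolynomial τ F) hgd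
      rw [Ideal.map_span] at h3
      exact h3
    have hΨPr : Ψ Pr ∈ Ideal.span (Ψ '' G) := by
      have h1 : Ψ Pr = C a⁻¹ * (Ψ x - Ψ ((eta g).coeff d)) := by
        have h2 : Ψ (C a) = C a := Ψ.commutes a
        rw [hx2, map_add, map_mul, h2]
        have h3 : (C a⁻¹ * C a : MvPolynomial τ F) = 1 := by
          rw [← C_mul, inv_mul_cancel₀ ha0, C_1]
        linear_combination (1 : MvPolynomial τ F) * (-h3 * Ψ Pr)
      rw [h1]
      exact Ideal.mul_mem_left _ _ (Ideal.sub_mem _ hΨx hΨg)
    -- split the product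
    set S0 := Finset.univ.filter (fun j => v j ∈ W0) with hS0
    set S1 := Finset.univ.filter (fun j => ¬ v j ∈ W0) with hS1
    have hsplit : Pr = (∏ j ∈ S0, lin (v j) ^ e i1 j) * ∏ j ∈ S1, lin (v j) ^ e i1 j := by
      rw [hPr, hS0, hS1, Finset.prod_filter_mul_prod_filter_not]
    have hΨprod : ∀ S : Finset J, Ψ (∏ j ∈ S, lin (v j) ^ e i1 j) =
        ∏ j ∈ S, lin (M (v j)) ^ e i1 j := by
      intro S
      rw [map_prod]
      apply Finset.prod_congr rfl
      intro j _
      rw [map_pow, hΨ]
    have hGM : ∀ g ∈ Ψ '' G, g ∈ gen (W0.map M) := by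
      rintro _ ⟨g, hg, rfl⟩
      have h1 : gen W0 ≤ (gen (W0.map M)).comap Ψ := by
        apply Algebra.adjoin_le
        rintro _ ⟨u, hu, rfl⟩
        change Ψ (lin u) ∈ gen (W0.map M)
        rw [hΨ]
        exact lin_mem_gen (Submodule.mem_map_of_mem hu)
      exact h1 (hG g hg)
    have h5 : Ψ (∏ j ∈ S0, lin (v j) ^ e i1 j) ∈ Ideal.span (Ψ '' G) := by
      apply nzd_prod hGM S1 (fun j => M (v j)) (e i1)
      · intro j hj hjM
        obtain ⟨w, hw, hwM⟩ := hjM
        have hj1 : v j ∉ W0 := (Finset.mem_filter.1 hj).2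
        have h6 := hM (insert j A) (by
          have := Finset.card_insert_le j A
          omega) (v j - w) (by
            apply Submodule.sub_mem
            · exact self_mem_cls v A j
            · exact le_cls v A j hw) (by rw [map_sub, hwM, sub_self])
        rw [sub_eq_zero] at h6
        rw [h6] at hj1
        exact hj1 hw
      · rw [hsplit, map_mul, mul_comm, hΨprod S1] at hΨPr
        exact hΨPr
    -- the retraction
    obtain ⟨g', hg'⟩ := LinearMap.exists_leftInverse_of_injective (M ∘ₗ W0.subtype) (by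
      rw [LinearMap.ker_eq_bot']
      intro u hu
      have := hM A (by omega) u u.2 hu
      exact Subtype.ext this)
    set ρ : MvPolynomial τ F →ₐ[F] MvPolynomial σ F :=
      aeval fun r => lin ((g' (Pi.single r 1) : W0) : σ → F) with hρ
    have hρlin : ∀ u : τ → F, ρ (lin u) = lin ((g' u : W0) : σ → F) := by
      intro u
      rw [hρ, aeval_lin]
      have h6 : u = ∑ r, u r • (Pi.single r (1 : F) : τ → F) := by
        conv_lhs => rw [← Finset.univ_sum_single u]
        apply Finset.sum_congr rfl
        intro r _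
        rw [← Pi.single_smul, smul_eq_mul, mul_one]
      conv_rhs => rw [h6]
      rw [map_sum]
      simp only [map_smul, Submodule.coe_sum, Submodule.coe_smul, map_sum]
      apply Finset.sum_congr rfl
      intro r _
      rw [algebraMap_eq, smul_eq_C_mul]
    have hρΨ : ∀ y ∈ gen W0, ρ (Ψ y) = y := by
      intro y hy
      have := eq_on_gen (ρ.comp Ψ) (AlgHom.id F _) (W := W0) (by
        intro u hu
        simp only [AlgHom.comp_apply, AlgHom.id_apply]
        rw [hΨ, hρlin]
        have h7 := congrArg (fun f => f ⟨u, hu⟩) hg'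
        simp only [LinearMap.comp_apply, Submodule.subtype_apply, LinearMap.id_apply] at h7
        rw [h7]) hy
      simpa using this
    have h8 : ρ (Ψ (∏ j ∈ S0, lin (v j) ^ e i1 j)) ∈ Ideal.span (ρ '' (Ψ '' G)) := by
      have h3 := Ideal.mem_map_of_mem (ρ : MvPolynomial τ F →+* MvPolynomial σ F) h5
      rw [Ideal.map_span] at h3
      exact h3
    have h9 : ρ '' (Ψ '' G) ⊆ G := by
      rintro _ ⟨_, ⟨g, hg, rfl⟩, rfl⟩
      rw [hρΨ g (hG g hg)]
      exact hg
    rw [hρΨ _ (prod_mem_gen S0 v (e i1) (fun j hj => (Finset.mem_filter.1 hj).2))] at h8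
    have h10 : Pr ∈ Ideal.span G := by
      rw [hsplit]
      exact Ideal.mul_mem_right _ _ (Ideal.span_mono h9 h8)
    apply hnot
    rw [hx2]
    exact Ideal.add_mem _ (Ideal.mul_mem_left _ _ h10) hgd

/-- A nonzero sum of `t` products of linear forms (homogeneous) stays nonzero under a linear
substitution that is injective on the spans of at most `t` of the forms. -/
theorem var_reduction (v : J → σ → F) (Ψ : MvPolynomial σ F →ₐ[F] MvPolynomial τ F)
    (M : (σ → F) →ₗ[F] (τ → F)) (hΨ : ∀ u, Ψ (lin u) = lin (M u)) (t : ℕ)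
    (hM : ∀ A : Finset J, A.card ≤ t → ∀ u ∈ Submodule.span F (v '' A), M u = 0 → u = 0)
    (d : ℕ) (c : ι → F) (e : ι → J → ℕ) (I : Finset ι) (hI : I.card ≤ t)
    (hd : ∀ i ∈ I, ∑ j, e i j = d) (hne : ∑ i ∈ I, C (c i) * ∏ j, lin (v j) ^ e i j ≠ 0) :
    Ψ (∑ i ∈ I, C (c i) * ∏ j, lin (v j) ^ e i j) ≠ 0 := by
  have h := cert v Ψ M hΨ t hM d c e I.card I ∅ ∅ rfl (by simpa using hI) hd (by simp) (by simp)
    (by rwa [Ideal.span_empty, Ideal.mem_bot])
  rwa [Set.image_empty, Ideal.span_empty, Ideal.mem_bot] at h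

end main

end Pool.Agent.Helper12_D3
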