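import Mathlib
import Pool.Agent.Helper12_D3.Cert

set_option autoImplicit false
set_option linter.unusedSectionVars false

/-!
Points on the moment curve that separate finitely many small subspaces; points and directions
avoiding hypersurfaces.
-/

namespace Pool.Agent.Helper12_D3

open MvPolynomial

section beta

variable {F : Type} [Field F]

/-- Value at `β` of the polynomial with coefficient vector `u`. -/
def ev {n : ℕ} (β : F) : (Fin (n + 1) → F) →ₗ[F] F where
  toFun u := ∑ s, u s * β ^ (s : ℕ)
  map_add' u w := by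
    simp only [Pi.add_apply, add_mul, Finset.sum_add_distrib]
  map_smul' a u := by
    simp only [Pi.smul_apply, smul_eq_mul, RingHom.id_apply, Finset.mul_sum, mul_assoc]

lemma ev_apply {n : ℕ} (β : F) (u : Fin (n + 1) → F) : ev β u = ∑ s, u s * β ^ (s : ℕ) := rfl

open scoped Classical in
lemma exists_few_roots {n : ℕ} (u : Fin (n + 1) → F) (hu : u ≠ 0) :
    ∃ R : Finset F, R.card ≤ n ∧ ∀ β, ev β u = 0 → β ∈ R := by
  set P : Polynomial F := ∑ s : Fin (n + 1), Polynomial.C (u s) * Polynomial.X ^ (s : ℕ) with hP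
  have hcoeff : ∀ s : Fin (n + 1), P.coeff s = u s := by
    intro s
    rw [hP, Polynomial.finsetSum_coeff]
    simp only [Polynomial.coeff_C_mul_X_pow]
    rw [Finset.sum_eq_single s]
    · simp
    · intro b _ hb
      rw [if_neg]
      intro h
      exact hb (Fin.ext h.symm)
    · intro h; exact absurd (Finset.mem_univ s) h
  have hP0 : P ≠ 0 := by
    intro h0
    apply hu
    funext s
    rw [← hcoeff s, h0, Polynomial.coeff_zero]
    rfl
  have hdeg : P.natDegree ≤ n := by
    rw [hP]
    apply Polynomial.natDegree_sum_le_of_forall_le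
    intro s _
    refine (Polynomial.natDegree_C_mul_X_pow_le _ _).trans ?_
    have := s.2
    omega
  refine ⟨P.roots.toFinset, ?_, ?_⟩
  · exact (Multiset.toFinset_card_le _).trans ((Polynomial.card_roots' P).trans hdeg)
  · intro β hβ
    rw [Multiset.mem_toFinset, Polynomial.mem_roots hP0, Polynomial.IsRoot.def, hP,
      Polynomial.eval_finsetSum]
    rw [ev_apply] at hβ
    rw [← hβ]
    apply Finset.sum_congr rfl
    intro s _
    simp

theorem exists_beta {n : ℕ} {Q : Type} [Fintype Q] (S : Finset F) (t : ℕ) :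
    ∀ (W : Q → Submodule F (Fin (n + 1) → F)), (∀ a, Module.finrank F (W a) ≤ t) →
    Fintype.card Q * n < S.card →
    ∃ β : Fin t → F, (∀ r, β r ∈ S) ∧ ∀ a, ∀ u ∈ W a, (∀ r, ev (β r) u = 0) → u = 0 := by
  classical
  induction t with
  | zero =>
    intro W hW _
    refine ⟨fun r => r.elim0, fun r => r.elim0, ?_⟩
    intro a u hu _
    have h1 : W a = ⊥ := Submodule.finrank_eq_zero.1 (by have := hW a; omega)
    rw [h1] at hu
    exact (Submodule.mem_bot F).1 hu
  | succ t ih =>
    intro W hW hcard
    have hch : ∀ a, ∃ R : Finset F, R.card ≤ n ∧ (W a ≠ ⊥ → ∃ u ∈ W a, u ≠ 0 ∧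
        ∀ β, ev β u = 0 → β ∈ R) := by
      intro a
      by_cases ha : W a = ⊥
      · exact ⟨∅, by simp, fun h => absurd ha h⟩
      · obtain ⟨u, huW, hu0⟩ := Submodule.exists_mem_ne_zero_of_ne_bot ha
        obtain ⟨R, hR, hR2⟩ := exists_few_roots u hu0
        exact ⟨R, hR, fun _ => ⟨u, huW, hu0, hR2⟩⟩
    choose R hR hR2 using hch
    obtain ⟨β0, hβ0S, hβ0⟩ : ∃ β0 ∈ S, β0 ∉ Finset.univ.biUnion R := by
      by_contra hcon
      push Not at hcon
      have h1 : S.card ≤ (Finset.univ.biUnion R).card := Finset.card_le_card hcon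
      have h2 : (Finset.univ.biUnion R).card ≤ Fintype.card Q * n :=
        Finset.card_biUnion_le_card_mul _ _ _ fun a _ => hR a
      omega
    have hβ0' : ∀ a, β0 ∉ R a := by
      intro a ha
      exact hβ0 (Finset.mem_biUnion.2 ⟨a, Finset.mem_univ a, ha⟩)
    obtain ⟨β, hβS, hβ⟩ := ih (fun a => W a ⊓ LinearMap.ker (ev β0)) (by
      intro a
      by_cases ha : W a = ⊥
      · rw [ha, bot_inf_eq, finrank_bot]
        exact Nat.zero_le _
      · obtain ⟨u, huW, hu0, hu⟩ := hR2 a ha
        have hlt : W a ⊓ LinearMap.ker (ev β0) < W a := by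
          refine lt_of_le_of_ne inf_le_left ?_
          intro heq
          rw [← heq] at huW
          exact hβ0' a (hu β0 huW.2)
        have h1 := Submodule.finrank_lt_finrank_of_lt hlt
        have h2 := hW a
        omega) hcard
    refine ⟨Fin.cons β0 β, ?_, ?_⟩
    · intro r
      refine Fin.cases ?_ ?_ r
      · exact hβ0S
      · exact hβS
    · intro a u hu hr
      apply hβ a u
      · refine ⟨hu, ?_⟩
        have := hr 0
        rwa [Fin.cons_zero] at this
      · intro r
        have := hr r.succ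
        rwa [Fin.cons_succ] at this

end beta

section points

variable {F τ : Type} [Field F] [Fintype τ]

theorem exists_point {R : Type} [CommRing R] [IsDomain R] (Q : MvPolynomial τ R) (hQ : Q ≠ 0)
    (S : Finset R) (hS : Q.totalDegree < S.card) :
    ∃ x : τ → R, (∀ r, x r ∈ S) ∧ eval x Q ≠ 0 := by
  by_contra hcon
  push Not at hcon
  apply hQ
  apply eq_zero_of_eval_zero_at_prod_finset Q (fun _ => S)
  · intro i
    exact lt_of_le_of_lt (degreeOf_le_totalDegree Q i) hS
  · exact hcon

lemma eval_lin {F τ : Type} [CommRing F] [Fintype τ] (x v : τ → F) :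
    eval x (lin v) = ∑ s, v s * x s := by
  rw [lin_apply, map_sum]
  apply Finset.sum_congr rfl
  intro s _
  simp

lemma lin_eq_zero_iff (v : τ → F) : lin v = 0 ↔ v = 0 := by
  classical
  constructor
  · intro h
    funext s
    have h1 := congrArg (eval (Pi.single s 1)) h
    rw [eval_lin, map_zero] at h1
    simpa [Pi.single_apply] using h1
  · rintro rfl
    exact map_zero lin

lemma totalDegree_lin_le {F τ : Type} [CommRing F] [Nontrivial F] [Fintype τ] (v : τ → F) :
    (lin v).totalDegree ≤ 1 := by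
  rw [lin_apply]
  apply totalDegree_finsetSum_le
  intro s _
  refine (totalDegree_mul _ _).trans ?_
  rw [totalDegree_C, totalDegree_X]

/-- A point off a hypersurface and off finitely many hyperplanes. -/
theorem exists_point_lin {J : Type} (H : MvPolynomial τ F) (hH : H ≠ 0) (T : Finset J)
    (v : J → τ → F) (hv : ∀ j ∈ T, v j ≠ 0) (S : Finset F)
    (hS : H.totalDegree + T.card < S.card) :
    ∃ x : τ → F, (∀ r, x r ∈ S) ∧ eval x H ≠ 0 ∧ ∀ j ∈ T, ∑ s, v j s * x s ≠ 0 := by
  classical
  set Q : MvPolynomial τ F := H * ∏ j ∈ T, lin (v j) with hQ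
  have hQ0 : Q ≠ 0 := mul_ne_zero hH (Finset.prod_ne_zero_iff.2 fun j hj h0 =>
    hv j hj ((lin_eq_zero_iff _).1 h0))
  have hdeg : Q.totalDegree ≤ H.totalDegree + T.card := by
    rw [hQ]
    refine (totalDegree_mul _ _).trans (add_le_add le_rfl ?_)
    refine (totalDegree_finsetProd _ _).trans ?_
    refine (Finset.sum_le_sum fun j _ => totalDegree_lin_le (v j)).trans ?_
    simp
  obtain ⟨x, hxS, hx⟩ := exists_point Q hQ0 S (by omega)
  rw [hQ, map_mul, map_prod] at hx
  refine ⟨x, hxS, left_ne_zero_of_mul hx, ?_⟩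
  intro j hj
  have h1 := Finset.prod_ne_zero_iff.1 (right_ne_zero_of_mul hx) j hj
  rwa [eval_lin] at h1

end points

end Pool.Agent.Helper12_D3
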