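import Mathlib
import Pool.Agent.Helper35_Wr.Order

set_option autoImplicit false
set_option linter.unusedSectionVars false

/-!
Sums of products of powers of pairwise coprime univariate polynomials over `ZMod p`: independence
over the constants, and the order of vanishing.
-/

namespace Pool.Agent.Helper12_D3

open Polynomial Matrix Pool.Agent.Helper35_Wr

section general

variable {K : Type} [Field K]

lemma natDegree_det_le {l : ℕ} (M : Matrix (Fin l) (Fin l) K[X]) (d : Fin l → ℕ)
    (h : ∀ i j, (M i j).natDegree ≤ d i) : M.det.natDegree ≤ ∑ i, d i := by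
  rw [det_apply']
  apply natDegree_sum_le_of_forall_le
  intro σ _
  refine natDegree_mul_le.trans ?_
  have h1 : ((Equiv.Perm.sign σ : ℤ) : K[X]).natDegree = 0 := natDegree_intCast _
  rw [h1, zero_add]
  refine (natDegree_prod_le _ _).trans ?_
  rw [← Equiv.sum_comp σ d]
  exact Finset.sum_le_sum fun i _ => h (σ i) i

variable {ι J : Type} [Fintype J]

/-- The product of powers attached to `i`. -/
noncomputable def pw (u : J → K[X]) (e : ι → J → ℕ) (i : ι) : K[X] := ∏ j, u j ^ e i j

/-- The `i`-th term. -/
noncomputable def tm (h : ι → K[X]) (u : J → K[X]) (e : ι → J → ℕ) (i : ι) : K[X] :=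
  h i * pw u e i

lemma exists_logder (u : J → K[X]) (e : J → ℕ) : ∃ D : K[X],
    (∏ j, u j) * derivative (∏ j, u j ^ e j) = (∏ j, u j ^ e j) * D ∧
    D.natDegree ≤ ∑ j, (u j).natDegree := by
  classical
  suffices h : ∀ S : Finset J, ∃ D : K[X],
      (∏ j ∈ S, u j) * derivative (∏ j ∈ S, u j ^ e j) = (∏ j ∈ S, u j ^ e j) * D ∧
      D.natDegree ≤ ∑ j ∈ S, (u j).natDegree from h Finset.univ
  intro S
  induction S using Finset.induction_on with
  | empty => exact ⟨0, by simp, by simp⟩
  | insert j S hj ih =>
    obtain ⟨D, hD, hDd⟩ := ih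
    refine ⟨C (e j : K) * derivative (u j) * ∏ j ∈ S, u j + u j * D, ?_, ?_⟩
    · rw [Finset.prod_insert hj, Finset.prod_insert hj, derivative_mul]
      have h1 : u j * derivative (u j ^ e j) = u j ^ e j * (C (e j : K) * derivative (u j)) := by
        rcases Nat.eq_zero_or_pos (e j) with h0 | h0
        · rw [h0]; simp
        · obtain ⟨n, hn⟩ : ∃ n, e j = n + 1 := ⟨e j - 1, by omega⟩
          rw [hn, derivative_pow]
          simp only [Nat.add_sub_cancel]
          ring
      linear_combination (∏ j ∈ S, u j) * (∏ j ∈ S, u j ^ e j) * h1 + u j * u j ^ e j * hD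
    · rw [Finset.sum_insert hj]
      refine (natDegree_add_le _ _).trans (max_le ?_ ?_)
      · refine natDegree_mul_le.trans (add_le_add ?_ (natDegree_prod_le _ _))
        refine natDegree_mul_le.trans ?_
        rw [natDegree_C, zero_add]
        exact (natDegree_derivative_le _).trans (Nat.sub_le _ _)
      · exact natDegree_mul_le.trans (add_le_add le_rfl hDd)

/-- The derivatives of a term. -/
lemma exists_der (h : ι → K[X]) (u : J → K[X]) (e : ι → J → ℕ) (Δh : ℕ)
    (hh : ∀ i, (h i).natDegree ≤ Δh) (i : ι) (r : ℕ) : ∃ q : K[X],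
    (∏ j, u j) ^ r * derivative^[r] (tm h u e i) = pw u e i * q ∧
    q.natDegree ≤ Δh + r * ∑ j, (u j).natDegree := by
  induction r with
  | zero =>
    refine ⟨h i, ?_, by simpa using hh i⟩
    simp only [pow_zero, one_mul, Function.iterate_zero, id_eq, tm]
    ring
  | succ r ih =>
    obtain ⟨q, hq, hqd⟩ := ih
    obtain ⟨D, hD, hDd⟩ := exists_logder u (e i)
    set U := ∏ j, u j with hU
    refine ⟨D * q + U * derivative q - C (r : K) * derivative U * q, ?_, ?_⟩
    · rw [Function.iterate_succ_apply']
      set T := derivative^[r] (tm h u e i) with hT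
      have h1 := congrArg derivative hq
      rw [derivative_mul, derivative_mul] at h1
      have hD' : U * derivative (pw u e i) = pw u e i * D := hD
      have h2 : U * derivative (U ^ r) = C (r : K) * derivative U * U ^ r := by
        rcases Nat.eq_zero_or_pos r with h0 | h0
        · rw [h0]; simp
        · obtain ⟨n, hn⟩ : ∃ n, r = n + 1 := ⟨r - 1, by omega⟩
          rw [hn, derivative_pow]
          simp only [Nat.add_sub_cancel]
          ring
      linear_combination U * h1 - T * h2 + q * hD' - C (r : K) * derivative U * hq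
    · have hUd : U.natDegree ≤ ∑ j, (u j).natDegree := natDegree_prod_le _ _
      have e1 : (r + 1) * ∑ j, (u j).natDegree = r * (∑ j, (u j).natDegree) +
          ∑ j, (u j).natDegree := by ring
      have d1 : (derivative q).natDegree ≤ q.natDegree :=
        (natDegree_derivative_le _).trans (Nat.sub_le _ _)
      have d2 : (derivative U).natDegree ≤ U.natDegree :=
        (natDegree_derivative_le _).trans (Nat.sub_le _ _)
      refine (natDegree_sub_le _ _).trans (max_le ((natDegree_add_le _ _).trans (max_le ?_ ?_)) ?_)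
      · refine natDegree_mul_le.trans ?_
        omega
      · refine natDegree_mul_le.trans ?_
        omega
      · refine natDegree_mul_le.trans ?_
        have := natDegree_mul_le (p := C (r : K)) (q := derivative U)
        rw [natDegree_C, zero_add] at this
        omega

/-- Factorization of the Wronskian of terms. -/
lemma wr_fact (h : ι → K[X]) (u : J → K[X]) (e : ι → J → ℕ) (Δh : ℕ)
    (hh : ∀ i, (h i).natDegree ≤ Δh) {l : ℕ} (v : Fin l → ι) : ∃ V : K[X],
    (∏ i : Fin l, (∏ j, u j) ^ (i : ℕ)) * Wr (fun a => tm h u e (v a)) =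
      (∏ a, pw u e (v a)) * V ∧
    V.natDegree ≤ l * (Δh + l * ∑ j, (u j).natDegree) := by
  choose q hq hqd using exists_der h u e Δh hh
  refine ⟨(Matrix.of fun i j : Fin l => q (v j) i).det, ?_, ?_⟩
  · unfold Wr
    rw [← det_mul_column, ← det_mul_row]
    congr 1
    ext1 i j
    simp only [of_apply]
    rw [hq]
  · refine (natDegree_det_le _ (fun _ => Δh + l * ∑ j, (u j).natDegree) ?_).trans (by simp)
    intro i j
    simp only [of_apply]
    refine (hqd _ _).trans ?_
    have : (i : ℕ) * ∑ j, (u j).natDegree ≤ l * ∑ j, (u j).natDegree :=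
      Nat.mul_le_mul_right _ i.2.le
    omega

lemma vl_prod {J : Type} (S : Finset J) (π : K[X]) (f : J → K[X]) (hf : ∀ j ∈ S, f j ≠ 0) :
    vl π (∏ j ∈ S, f j) = ∑ j ∈ S, vl π (f j) := by
  classical
  induction S using Finset.induction_on with
  | empty =>
    rw [Finset.prod_empty, Finset.sum_empty]
    unfold vl
    simp
  | insert j S hj ih =>
    rw [Finset.prod_insert hj, Finset.sum_insert hj, vl_mul π (hf j (Finset.mem_insert_self _ _))
      (Finset.prod_ne_zero_iff.2 fun k hk => hf k (Finset.mem_insert_of_mem hk)),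
      ih fun k hk => hf k (Finset.mem_insert_of_mem hk)]

lemma vl_pw (u : J → K[X]) (hu : ∀ j, u j ≠ 0) (e : ι → J → ℕ) (i : ι) (π : K[X]) :
    vl π (pw u e i) = ∑ j, e i j * vl π (u j) := by
  unfold pw
  rw [vl_prod _ _ _ fun j _ => pow_ne_zero _ (hu j)]
  exact Finset.sum_congr rfl fun j _ => vl_pow π (u j) (e i j)

lemma exists_vl_pos {A : K[X]} (hA : A ≠ 0) (hdeg : 1 ≤ A.natDegree) : ∃ π, 1 ≤ vl π A := by
  classical
  have hne : UniqueFactorizationMonoid.normalizedFactors A ≠ 0 := by
    intro h0
    have h1 := UniqueFactorizationMonoid.prod_normalizedFactors hA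
    rw [h0, Multiset.prod_zero] at h1
    have h2 : IsUnit A := h1.isUnit isUnit_one
    rw [natDegree_eq_zero_of_isUnit h2] at hdeg
    omega
  obtain ⟨π, hπ⟩ := Multiset.exists_mem_of_ne_zero hne
  refine ⟨π, ?_⟩
  have := Multiset.count_pos.2 hπ
  change 0 < vl π A
  unfold vl
  convert this

lemma vl_eq_zero_of_coprime {A B : K[X]} (h : IsCoprime A B) {π : K[X]}
    (hπ : 1 ≤ vl π A) : vl π B = 0 := by
  classical
  by_contra hne
  have h1 : π ∈ UniqueFactorizationMonoid.normalizedFactors A := by
    apply Multiset.count_pos.1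
    unfold vl at hπ
    have : 0 < vl π A := hπ
    unfold vl at this
    convert this
  have h2 : π ∈ UniqueFactorizationMonoid.normalizedFactors B := by
    apply Multiset.count_pos.1
    have : 0 < vl π B := Nat.pos_of_ne_zero hne
    unfold vl at this
    convert this
  have h3 := UniqueFactorizationMonoid.dvd_of_mem_normalizedFactors h1
  have h4 := UniqueFactorizationMonoid.dvd_of_mem_normalizedFactors h2
  have h5 := UniqueFactorizationMonoid.irreducible_of_normalized_factor π h1
  exact h5.not_isUnit (h.isUnit_of_dvd' h3 h4)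

end general

section modp

variable {p : ℕ} [Fact p.Prime] {ι J Q : Type} [Fintype J] [DecidableEq Q]

/-- Independence over `ZMod p` inside each class. -/
def FI (g : ι → (ZMod p)[X]) (κ : ι → Q) {l : ℕ} (v : Fin l → ι) : Prop :=
  ∀ (b : Fin l → ZMod p) (q : Q), (∑ a, if κ (v a) = q then C (b a) * g (v a) else 0) = 0 →
    ∀ a, κ (v a) = q → b a = 0

/-- Hypotheses on the prime `p`. -/
def Good (p : ℕ) (e : ι → J → ℕ) (Δ B : ℕ) : Prop :=
  B < p ∧ ∀ i i' j, ∀ a b : ℤ, 1 ≤ a → a ≤ Δ → |b| ≤ B → a * ((e i j : ℤ) - e i' j) ≠ b →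
    ¬ (p : ℤ) ∣ a * ((e i j : ℤ) - e i' j) - b

theorem indepC_classes (h : ι → (ZMod p)[X]) (u : J → (ZMod p)[X]) (e : ι → J → ℕ) (Δh Δ B : ℕ)
    (hgood : Good p e Δ B) (hh : ∀ i, (h i).natDegree ≤ Δh)
    (hu1 : ∀ j, 1 ≤ (u j).natDegree) (huΔ : ∀ j, (u j).natDegree ≤ Δ)
    (hcop : Pairwise fun j j' => IsCoprime (u j) (u j')) (κ : ι → Q)
    (hκ : ∀ i i', (∀ j, |(e i j : ℤ) - e i' j| ≤ B) → κ i = κ i') :
    ∀ (l : ℕ) (v : Fin l → ι), FI (tm h u e) κ v → l * (Δh + l * ∑ j, (u j).natDegree) ≤ B →
    ∀ c : Fin l → (ZMod p)[X], (∀ a, derivative (c a) = 0) → ∑ a, c a * tm h u e (v a) = 0 →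
    ∀ a, c a = 0 := by
  have hu0 : ∀ j, u j ≠ 0 := by
    intro j h0
    have := hu1 j
    rw [h0, natDegree_zero] at this
    omega
  have hp0 : 0 < p := (Fact.out : p.Prime).pos
  have hpw0 : ∀ i, pw u e i ≠ 0 := fun i =>
    Finset.prod_ne_zero_iff.2 fun j _ => pow_ne_zero _ (hu0 j)
  set Du := ∑ j, (u j).natDegree with hDu
  intro l
  induction l with
  | zero => intro _ _ _ _ _ _ a; exact a.elim0
  | succ l ih =>
    intro v hFI hB c hc hsum
    have hB' : l * (Δh + l * Du) ≤ B := by
      refine le_trans ?_ hB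
      apply Nat.mul_le_mul (by omega)
      apply Nat.add_le_add_left
      apply Nat.mul_le_mul_right
      omega
    have hFIsub : ∀ j : Fin (l + 1), FI (tm h u e) κ (fun a => v (j.succAbove a)) := by
      intro j b q hb a ha
      have h1 := hFI (j.insertNth (α := fun _ => ZMod p) 0 b) q (by
        rw [Fin.sum_univ_succAbove _ j]
        simp only [Fin.insertNth_apply_same, Fin.insertNth_apply_succAbove, C_0, zero_mul, ite_self,
          zero_add]
        exact hb) (j.succAbove a) ha
      simpa using h1
    by_cases hz : ∃ j, c j = 0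
    · obtain ⟨j, hj⟩ := hz
      rw [Fin.sum_univ_succAbove _ j, hj, zero_mul, zero_add] at hsum
      have h1 := ih (fun a => v (j.succAbove a)) (hFIsub j) hB'
        (fun a => c (j.succAbove a)) (fun a => hc _) hsum
      intro a
      rcases Fin.eq_self_or_eq_succAbove j a with h2 | ⟨a', h2⟩
      · rw [h2]; exact hj
      · rw [h2]; exact h1 a'
    · exfalso
      push Not at hz
      have hbase : ∀ a, ∃ ψ : (ZMod p)[X], c a = ψ ^ p := fun a => const_eq_pow (hc a)
      choose ψ hψ using hbase
      have hψ0 : ∀ a, ψ a ≠ 0 := by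
        intro a h0
        apply hz a
        rw [hψ, h0, zero_pow hp0.ne']
      -- comparison of two indices
      have hcomp : ∀ j : Fin l, ∃ V V2 : (ZMod p)[X], V ≠ 0 ∧ V2 ≠ 0 ∧ V.natDegree ≤ B ∧
          V2.natDegree ≤ B ∧ c ((0 : Fin (l + 1)).succAbove j) *
            pw u e (v ((0 : Fin (l + 1)).succAbove j)) * V =
            c 0 * pw u e (v 0) * V2 := by
        intro j
        set i1 : Fin (l + 1) := 0 with hi1
        set w : Fin l → ι := fun a => v (i1.succAbove a) with hw
        set w2 : Fin l → ι := Function.update w j (v i1) with hw2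
        have hWr := Wr_ne_zero_of_indepC (fun a => tm h u e (w a)) (fun c' hc' hs' =>
          ih w (hFIsub i1) hB' c' hc' hs')
        obtain ⟨V, hV, hVd⟩ := wr_fact h u e Δh hh w
        obtain ⟨V2, hV2, hV2d⟩ := wr_fact h u e Δh hh w2
        have h3 : (fun a => tm h u e (w2 a)) =
            Function.update (fun a => tm h u e (w a)) j (tm h u e (v i1)) := by
          funext a
          by_cases ha : a = j
          · rw [ha, hw2, Function.update_self, Function.update_self]
          · rw [hw2, Function.update_of_ne ha, Function.update_of_ne ha]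
        have h4 : c (i1.succAbove j) * Wr (fun a => tm h u e (w a)) =
            -c i1 * Wr (fun a => tm h u e (w2 a)) := by
          rw [h3, ← Wr_update_const (fun a => tm h u e (w a)) j (fun k => c (i1.succAbove k))
            (fun k => hc _), ← Wr_update_mul (fun a => tm h u e (w a)) j
              (by rw [derivative_neg, hc, neg_zero])]
          congr 2
          rw [Fin.sum_univ_succAbove _ i1] at hsum
          have h5 := eq_neg_of_add_eq_zero_right hsum
          rw [h5]
          ring
        have hUne : (∏ i : Fin l, (∏ j, u j) ^ (i : ℕ)) ≠ 0 :=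
          Finset.prod_ne_zero_iff.2 fun i _ => pow_ne_zero _
            (Finset.prod_ne_zero_iff.2 fun j _ => hu0 j)
        have hP1 : ∏ a, pw u e (w a) = pw u e (v (i1.succAbove j)) *
            ∏ a ∈ Finset.univ.erase j, pw u e (w a) := by
          rw [← Finset.mul_prod_erase _ _ (Finset.mem_univ j)]
        have hP2 : ∏ a, pw u e (w2 a) = pw u e (v i1) *
            ∏ a ∈ Finset.univ.erase j, pw u e (w a) := by
          rw [← Finset.mul_prod_erase _ _ (Finset.mem_univ j)]
          congr 1
          · rw [hw2, Function.update_self]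
          · apply Finset.prod_congr rfl
            intro a ha
            rw [hw2, Function.update_of_ne (Finset.ne_of_mem_erase ha)]
        set R := ∏ a ∈ Finset.univ.erase j, pw u e (w a) with hR
        have hR0 : R ≠ 0 := Finset.prod_ne_zero_iff.mpr fun a _ => hpw0 _
        have h6 : c (i1.succAbove j) * pw u e (v (i1.succAbove j)) * V =
            c i1 * pw u e (v i1) * (-V2) := by
          have h7 : R * (c (i1.succAbove j) * pw u e (v (i1.succAbove j)) * V) =
              R * (c i1 * pw u e (v i1) * (-V2)) := by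
            rw [hP1] at hV
            rw [hP2] at hV2
            linear_combination (∏ i : Fin l, (∏ j, u j) ^ (i : ℕ)) * h4 -
              c (i1.succAbove j) * hV - c i1 * hV2
          exact mul_left_cancel₀ hR0 h7
        have hV0 : V ≠ 0 := by
          intro h0
          rw [h0, mul_zero] at hV
          rcases mul_eq_zero.1 hV with h8 | h8
          · exact hUne h8
          · exact hWr h8
        have hL0 : c (i1.succAbove j) * pw u e (v (i1.succAbove j)) * V ≠ 0 :=
          mul_ne_zero (mul_ne_zero (hz _) (hpw0 _)) hV0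
        have hV20 : -V2 ≠ 0 := by
          intro h0
          rw [h6, h0, mul_zero] at hL0
          exact hL0 rfl
        exact ⟨V, -V2, hV0, hV20, hVd.trans hB', by rw [natDegree_neg]; exact hV2d.trans hB', h6⟩
      -- valuations
      have hval : ∀ j : Fin l, ∀ π, ∃ x y : ℕ, x ≤ B ∧ y ≤ B ∧
          p * vl π (ψ ((0 : Fin (l + 1)).succAbove j)) +
            (∑ k, e (v ((0 : Fin (l + 1)).succAbove j)) k * vl π (u k)) + x =
          p * vl π (ψ 0) + (∑ k, e (v 0) k * vl π (u k)) + y := by
        intro j π
        obtain ⟨V, V2, hV0, hV20, hVd, hV2d, h6⟩ := hcomp j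
        refine ⟨vl π V, vl π V2, (vl_le_natDegree π hV0).trans hVd,
          (vl_le_natDegree π hV20).trans hV2d, ?_⟩
        have h8 := congrArg (vl π) h6
        rw [vl_mul π (mul_ne_zero (hz _) (hpw0 _)) hV0, vl_mul π (hz _) (hpw0 _),
          vl_mul π (mul_ne_zero (hz _) (hpw0 _)) hV20, vl_mul π (hz _) (hpw0 _), hψ, hψ, vl_pow,
          vl_pow, vl_pw u hu0, vl_pw u hu0] at h8
        exact h8
      -- at a factor of some `u k`
      have hfac : ∀ (j : Fin l) (k : J) (π : (ZMod p)[X]), 1 ≤ vl π (u k) →
          |(e (v ((0 : Fin (l + 1)).succAbove j)) k : ℤ) - e (v 0) k| ≤ B ∧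
          vl π (ψ ((0 : Fin (l + 1)).succAbove j)) = vl π (ψ 0) := by
        intro j k π hπ
        obtain ⟨x, y, hx, hy, heq⟩ := hval j π
        have hsingle : ∀ i, ∑ k', e i k' * vl π (u k') = e i k * vl π (u k) := by
          intro i
          rw [Finset.sum_eq_single k]
          · intro k' _ hk'
            rw [vl_eq_zero_of_coprime (hcop hk'.symm) hπ, mul_zero]
          · intro hk; exact absurd (Finset.mem_univ k) hk
        rw [hsingle, hsingle] at heq
        set μ := vl π (u k) with hμ
        have hμΔ : μ ≤ Δ := (vl_le_natDegree π (hu0 k)).trans (huΔ k)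
        set E1 := e (v ((0 : Fin (l + 1)).succAbove j)) k with hE1
        set E0 := e (v 0) k with hE0
        set s := vl π (ψ ((0 : Fin (l + 1)).succAbove j)) with hs
        set s0 := vl π (ψ 0) with hs0
        have heq' : (p : ℤ) * s + E1 * μ + x = p * s0 + E0 * μ + y := by exact_mod_cast heq
        have hb : |(y : ℤ) - x| ≤ B := by rw [abs_le]; constructor <;> omega
        have hex : (μ : ℤ) * ((E1 : ℤ) - E0) = (y : ℤ) - x := by
          by_contra hne
          apply hgood.2 (v ((0 : Fin (l + 1)).succAbove j)) (v 0) k μ ((y : ℤ) - x)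
            (by exact_mod_cast hπ) (by exact_mod_cast hμΔ) hb hne
          exact ⟨(s0 : ℤ) - s, by linear_combination heq'⟩
        constructor
        · rw [← hex, abs_mul] at hb
          refine le_trans ?_ hb
          have h9 : (1 : ℤ) ≤ |(μ : ℤ)| := by
            rw [abs_of_nonneg (by positivity)]
            exact_mod_cast hπ
          nlinarith [abs_nonneg ((E1 : ℤ) - E0)]
        · have h9 : (p : ℤ) * s = p * s0 := by linear_combination heq' - hex
          have h10 : (p : ℤ) ≠ 0 := by exact_mod_cast hp0.ne'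
          exact_mod_cast mul_left_cancel₀ h10 h9
      have hψeq : ∀ j : Fin l, ∀ π, vl π (ψ ((0 : Fin (l + 1)).succAbove j)) = vl π (ψ 0) := by
        intro j π
        by_cases hk : ∃ k, 1 ≤ vl π (u k)
        · obtain ⟨k, hk⟩ := hk
          exact (hfac j k π hk).2
        · push Not at hk
          obtain ⟨x, y, hx, hy, heq⟩ := hval j π
          have hzero : ∀ i, ∑ k', e i k' * vl π (u k') = 0 := by
            intro i
            apply Finset.sum_eq_zero
            intro k' _
            have := hk k'
            have h0 : vl π (u k') = 0 := by omega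
            rw [h0, mul_zero]
          rw [hzero, hzero, add_zero, add_zero] at heq
          have hBp := hgood.1
          by_contra hne
          rcases Nat.lt_or_gt_of_ne hne with h1 | h1
          · have h2 : p * (vl π (ψ ((0 : Fin (l + 1)).succAbove j)) + 1) ≤ p * vl π (ψ 0) :=
              Nat.mul_le_mul_left _ h1
            rw [mul_add, mul_one] at h2
            omega
          · have h2 : p * (vl π (ψ 0) + 1) ≤ p * vl π (ψ ((0 : Fin (l + 1)).succAbove j)) :=
              Nat.mul_le_mul_left _ h1
            rw [mul_add, mul_one] at h2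
            omega
      have hκeq : ∀ a, κ (v a) = κ (v 0) := by
        intro a
        rcases Fin.eq_self_or_eq_succAbove 0 a with h2 | ⟨j, h2⟩
        · rw [h2]
        · rw [h2]
          apply hκ
          intro k
          obtain ⟨π, hπ⟩ := exists_vl_pos (hu0 k) (hu1 k)
          exact (hfac j k π hπ).1
      have hlam : ∀ a, ∃ lam : ZMod p, ψ a = C lam * ψ 0 := by
        intro a
        rcases Fin.eq_self_or_eq_succAbove 0 a with h2 | ⟨j, h2⟩
        · exact ⟨1, by rw [h2, C_1, one_mul]⟩
        · rw [h2]
          by_contra hcon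
          have hnp : NonProp (ψ ((0 : Fin (l + 1)).succAbove j)) (ψ 0) := by
            intro x y hxy
            by_cases hx : x = 0
            · refine ⟨hx, ?_⟩
              rw [hx, C_0, zero_mul] at hxy
              rcases mul_eq_zero.1 hxy.symm with h3 | h3
              · exact C_eq_zero.1 h3
              · exact absurd h3 (hψ0 0)
            · exfalso
              apply hcon
              refine ⟨x⁻¹ * y, ?_⟩
              rw [C_mul, mul_assoc, ← hxy, ← mul_assoc, ← C_mul, inv_mul_cancel₀ hx, C_1, one_mul]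
          obtain ⟨π, hπ⟩ := exists_vl_ne (hψ0 _) (hψ0 _) hnp
          exact hπ (hψeq j π)
      choose lam hlam using hlam
      have hfin := hFI (fun a => lam a ^ p) (κ (v 0)) (by
        have h1 : ψ 0 ^ p * (∑ a, if κ (v a) = κ (v 0) then C (lam a ^ p) * tm h u e (v a) else 0) =
            0 := by
          rw [← hsum, Finset.mul_sum]
          apply Finset.sum_congr rfl
          intro a _
          rw [if_pos (hκeq a), hψ a, hlam a, mul_pow, C_pow]
          ring
        exact (mul_eq_zero.1 h1).resolve_left (pow_ne_zero _ (hψ0 0))) 0 rfl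
      have h0 : lam 0 = 0 := pow_eq_zero_iff hp0.ne' |>.1 hfin
      have h1 := hlam 0
      rw [h0, C_0, zero_mul] at h1
      exact hψ0 0 h1

theorem order_bound [Fintype ι] [DecidableEq ι] (h : ι → (ZMod p)[X]) (u : J → (ZMod p)[X])
    (e : ι → J → ℕ) (Δh Δ B : ℕ)
    (hgood : Good p e Δ B) (hh : ∀ i, (h i).natDegree ≤ Δh)
    (hu1 : ∀ j, 1 ≤ (u j).natDegree) (huΔ : ∀ j, (u j).natDegree ≤ Δ)
    (hcop : Pairwise fun j j' => IsCoprime (u j) (u j')) (κ : ι → Q)
    (hκ : ∀ i i', (∀ j, |(e i j : ℤ) - e i' j| ≤ B) → κ i = κ i')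
    (hB : Fintype.card ι * (Δh + Fintype.card ι * ∑ j, (u j).natDegree) ≤ B)
    (c : ι → ZMod p) (q : Q) (hq : (∑ i, if κ i = q then C (c i) * tm h u e i else 0) ≠ 0)
    (x : ZMod p) (hx : ∀ j, (u j).eval x ≠ 0) (N : ℕ) (hN : B + Fintype.card ι ≤ N) :
    ¬ (X - C x) ^ N ∣ ∑ i, C (c i) * tm h u e i := by
  classical
  intro hdvd
  set P : (ι → ZMod p) → Prop := fun c' => ∀ q, (∑ i, if κ i = q then C (c' i) * tm h u e i else 0) =
    ∑ i, if κ i = q then C (c i) * tm h u e i else 0 with hP
  obtain ⟨c', hc', hmin⟩ := Finset.exists_min_image (Finset.univ.filter P)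
    (fun c' => (Finset.univ.filter fun i => c' i ≠ 0).card)
    ⟨c, Finset.mem_filter.2 ⟨Finset.mem_univ _, fun _ => rfl⟩⟩
  have hPc' : P c' := (Finset.mem_filter.1 hc').2
  set S := Finset.univ.filter fun i => c' i ≠ 0 with hS
  set l := S.card with hl
  set f : Fin l ≃ S := S.equivFin.symm with hf
  set v : Fin l → ι := fun a => (f a : ι) with hv
  have hvS : ∀ a, c' (v a) ≠ 0 := fun a => (Finset.mem_filter.1 (f a).2).2
  have hsumS : ∀ F : ι → (ZMod p)[X], (∀ i, c' i = 0 → F i = 0) → ∑ i, F i = ∑ a, F (v a) := by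
    intro F hF
    rw [← Finset.sum_subset (Finset.subset_univ S), ← Finset.sum_attach, Finset.attach_eq_univ]
    · exact (Fintype.sum_equiv f _ _ (fun a => rfl)).symm
    · intro i _ hi
      apply hF
      by_contra h0
      exact hi (Finset.mem_filter.2 ⟨Finset.mem_univ _, h0⟩)
  have hFI : FI (tm h u e) κ v := by
    intro b q' hb a0 ha0
    by_contra hba
    set bt : ι → ZMod p := fun i => if hi : i ∈ S then
      (if κ i = q' then b (f.symm ⟨i, hi⟩) else 0) else 0 with hbt
    have hbtv : ∀ a, bt (v a) = if κ (v a) = q' then b a else 0 := by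
      intro a
      rw [hbt]
      simp only
      rw [dif_pos (f a).2]
      have : f.symm ⟨v a, (f a).2⟩ = a := by
        have : (⟨v a, (f a).2⟩ : S) = f a := Subtype.ext rfl
        rw [this, Equiv.symm_apply_apply]
      rw [this]
    have hbt0 : ∀ i, c' i = 0 → bt i = 0 := by
      intro i hi
      rw [hbt]
      simp only
      rw [dif_neg]
      intro hiS
      exact (Finset.mem_filter.1 hiS).2 hi
    set s := c' (v a0) / b a0 with hs
    set c2 : ι → ZMod p := fun i => c' i - s * bt i with hc2
    have hPc2 : P c2 := by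
      intro q''
      have h1 : (∑ i, if κ i = q'' then C (bt i) * tm h u e i else 0) = 0 := by
        rw [hsumS _ (by
          intro i hi
          rw [hbt0 i hi, C_0, zero_mul, ite_self])]
        by_cases hqq : q'' = q'
        · subst hqq
          refine Eq.trans ?_ hb
          apply Finset.sum_congr rfl
          intro a _
          by_cases h2 : κ (v a) = q''
          · rw [if_pos h2, if_pos h2, hbtv, if_pos h2]
          · rw [if_neg h2, if_neg h2]
        · apply Finset.sum_eq_zero
          intro a _
          by_cases h2 : κ (v a) = q''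
          · rw [if_pos h2, hbtv, if_neg (by rw [h2]; exact hqq), C_0, zero_mul]
          · rw [if_neg h2]
      rw [← hPc' q'']
      have h2 : (∑ i, if κ i = q'' then C (c2 i) * tm h u e i else 0) =
          (∑ i, if κ i = q'' then C (c' i) * tm h u e i else 0) -
          C s * ∑ i, if κ i = q'' then C (bt i) * tm h u e i else 0 := by
        rw [Finset.mul_sum, ← Finset.sum_sub_distrib]
        apply Finset.sum_congr rfl
        intro i _
        by_cases h3 : κ i = q''
        · rw [if_pos h3, if_pos h3, if_pos h3, hc2]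
          simp only [C_sub, C_mul]
          ring
        · rw [if_neg h3, if_neg h3, if_neg h3, mul_zero, sub_zero]
      rw [h2, h1, mul_zero, sub_zero]
    have hlt : (Finset.univ.filter fun i => c2 i ≠ 0).card < S.card := by
      apply Finset.card_lt_card
      rw [Finset.ssubset_iff_of_subset]
      · refine ⟨v a0, (f a0).2, ?_⟩
        rw [Finset.mem_filter]
        push Not
        intro _
        rw [hc2]
        simp only
        rw [hbtv, if_pos ha0, hs, div_mul_cancel₀ _ hba, sub_self]
      · intro i hi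
        rw [Finset.mem_filter] at hi ⊢
        refine ⟨Finset.mem_univ _, ?_⟩
        intro h0
        apply hi.2
        rw [hc2]
        simp only
        rw [h0, hbt0 i h0, mul_zero, sub_zero]
    have := hmin c2 (Finset.mem_filter.2 ⟨Finset.mem_univ _, hPc2⟩)
    omega
  have hlι : l ≤ Fintype.card ι := Finset.card_le_univ S
  have hlB : l * (Δh + l * ∑ j, (u j).natDegree) ≤ B := by
    refine le_trans ?_ hB
    apply Nat.mul_le_mul hlι
    apply Nat.add_le_add_left
    exact Nat.mul_le_mul_right _ hlι
  have hl0 : 0 < l := by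
    by_contra h0
    have h1 : S = ∅ := Finset.card_eq_zero.1 (by omega)
    apply hq
    rw [← hPc' q]
    apply Finset.sum_eq_zero
    intro i _
    have h2 : c' i = 0 := by
      by_contra h3
      have : i ∈ S := Finset.mem_filter.2 ⟨Finset.mem_univ _, h3⟩
      rw [h1] at this
      exact absurd this (Finset.notMem_empty i)
    rw [h2, C_0, zero_mul, ite_self]
  have hWr := Wr_ne_zero_of_indepC (fun a => tm h u e (v a)) (fun c'' hc'' hs'' =>
    indepC_classes h u e Δh Δ B hgood hh hu1 huΔ hcop κ hκ l v hFI hlB c'' hc'' hs'')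
  have htot : ∑ i, C (c i) * tm h u e i = ∑ a, C (c' (v a)) * tm h u e (v a) := by
    have h1 : ∀ c1 : ι → ZMod p, ∑ i, C (c1 i) * tm h u e i =
        ∑ q ∈ Finset.univ.image κ, ∑ i, if κ i = q then C (c1 i) * tm h u e i else 0 := by
      intro c1
      rw [Finset.sum_comm]
      apply Finset.sum_congr rfl
      intro i _
      rw [Finset.sum_ite_eq, if_pos (Finset.mem_image_of_mem _ (Finset.mem_univ i))]
    rw [h1 c, ← hsumS (fun i => C (c' i) * tm h u e i) (by
      intro i hi; rw [hi, C_0, zero_mul]), h1 c']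
    exact Finset.sum_congr rfl fun q _ => (hPc' q).symm
  set a0 : Fin l := ⟨0, hl0⟩ with ha0
  have h1 : Wr (Function.update (fun a => tm h u e (v a)) a0 (∑ k, C (c' (v k)) * tm h u e (v k))) =
      C (c' (v a0)) * Wr (fun a => tm h u e (v a)) :=
    Wr_update_const (fun a => tm h u e (v a)) a0 (fun k => C (c' (v k))) (fun k => derivative_C)
  have h2 : (X - C x) ^ (N + 1 - l) ∣ Wr (fun a => tm h u e (v a)) := by
    have h3 : (X - C x) ^ (N + 1 - l) ∣ C (c' (v a0)) * Wr (fun a => tm h u e (v a)) := by
      rw [← h1]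
      apply dvd_Wr_of_dvd _ a0
      rw [Function.update_self, ← htot]
      exact hdvd
    have h4 : IsUnit (C (c' (v a0))) := isUnit_C.2 (isUnit_iff_ne_zero.2 (hvS a0))
    exact (h4.dvd_mul_left).1 h3
  obtain ⟨V, hV, hVd⟩ := wr_fact h u e Δh hh v
  have hu0 : ∀ j, u j ≠ 0 := by
    intro j h0
    have := hu1 j
    rw [h0, natDegree_zero] at this
    omega
  have hUne : (∏ i : Fin l, (∏ j, u j) ^ (i : ℕ)) ≠ 0 :=
    Finset.prod_ne_zero_iff.2 fun i _ => pow_ne_zero _
      (Finset.prod_ne_zero_iff.2 fun j _ => hu0 j)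
  have hV0 : V ≠ 0 := by
    intro h0
    rw [h0, mul_zero] at hV
    rcases mul_eq_zero.1 hV with h8 | h8
    · exact hUne h8
    · exact hWr h8
  have h3 : (X - C x) ^ (N + 1 - l) ∣ V := by
    have h4 : (X - C x) ^ (N + 1 - l) ∣ (∏ a, pw u e (v a)) * V := by
      rw [← hV]
      exact h2.mul_left _
    apply (prime_X_sub_C x).pow_dvd_of_dvd_mul_left _ _ h4
    intro h5
    rw [(prime_X_sub_C x).dvd_finsetProd_iff] at h5
    obtain ⟨a, -, ha⟩ := h5
    unfold pw at ha
    rw [(prime_X_sub_C x).dvd_finsetProd_iff] at ha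
    obtain ⟨j, -, hj⟩ := ha
    have := (prime_X_sub_C x).dvd_of_dvd_pow hj
    exact hx j (dvd_iff_isRoot.mp this)
  have h4 := natDegree_le_of_dvd h3 hV0
  rw [natDegree_pow, natDegree_X_sub_C, mul_one] at h4
  have h5 := hVd.trans hlB
  omega

end modp

end Pool.Agent.Helper12_D3
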