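import Mathlib
import Pool.Agent.Helper12_D3.Cond
import Pool.Agent.Helper12_D3.Uni

set_option autoImplicit false
set_option linter.unusedSectionVars false

/-!
Existence of a good line over `ZMod p`.
-/

namespace Pool.Agent.Helper12_D3

open Polynomial

variable {p : ℕ} [Fact p.Prime]

/-- Coefficient vectors of the homogenized forms; `none` is the homogenizing variable. -/
def vec {R : Type} [CommRing R] {n m : ℕ} (a : Fin m → Fin (n + 1) → R) :
    Option (Fin m) → Fin (n + 1) → R
  | none => Pi.single 0 1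
  | some j => a j

/-- The exponents of the homogenized terms. -/
def hex {ι : Type} {m : ℕ} (D : ℕ) (r : ι → Fin m → ℕ) (i : ι) : Option (Fin m) → ℕ
  | none => D - ∑ j, r i j
  | some j => r i j

lemma coprime_lin {F : Type} [Field F] (a b a' b' : F) (h : a * b' - a' * b ≠ 0) :
    IsCoprime (C a + C b * X : F[X]) (C a' + C b' * X) := by
  refine ⟨C ((a * b' - a' * b)⁻¹ * b'), C (-((a * b' - a' * b)⁻¹ * b)), ?_⟩
  have h1 : (C ((a * b' - a' * b)⁻¹ * b') : F[X]) * (C a + C b * X) +
      C (-((a * b' - a' * b)⁻¹ * b)) * (C a' + C b' * X) =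
      C ((a * b' - a' * b)⁻¹ * (a * b' - a' * b)) := by
    simp only [C_mul, C_sub, C_neg]
    ring
  rw [h1, inv_mul_cancel₀ h, C_1]

/-- The linear map to `t` coordinates. -/
def Mb {F : Type} [Field F] {n t : ℕ} (β : Fin t → F) :
    (Fin (n + 1) → F) →ₗ[F] (Fin t → F) where
  toFun v r := ev (β r) v
  map_add' v w := by funext r; simp
  map_smul' a v := by funext r; simp

/-- The corresponding substitution. -/
noncomputable def Psi {F : Type} [Field F] {n t : ℕ} (β : Fin t → F) :
    MvPolynomial (Fin (n + 1)) F →ₐ[F] MvPolynomial (Fin t) F :=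
  MvPolynomial.aeval fun s => ∑ r, MvPolynomial.C (β r ^ (s : ℕ)) * MvPolynomial.X r

lemma Psi_lin {F : Type} [Field F] {n t : ℕ} (β : Fin t → F) (v : Fin (n + 1) → F) :
    Psi β (lin v) = lin (Mb β v) := by
  unfold Psi
  rw [aeval_lin, lin_apply]
  have h1 : ∀ r, Mb β v r = ∑ s, v s * β r ^ (s : ℕ) := fun r => rfl
  simp only [h1, Finset.mul_sum, map_sum, Finset.sum_mul]
  rw [Finset.sum_comm]
  apply Finset.sum_congr rfl
  intro r _
  apply Finset.sum_congr rfl
  intro s _
  rw [MvPolynomial.algebraMap_eq, map_mul, mul_assoc]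

/-- Dot product. -/
def dot {F : Type} [CommRing F] {t : ℕ} (w x : Fin t → F) : F := ∑ r, w r * x r

lemma dot_smul_right {F : Type} [Field F] {t : ℕ} (w x : Fin t → F) (a : F) :
    dot w (fun r => a * x r) = a * dot w x := by
  unfold dot
  rw [Finset.mul_sum]
  apply Finset.sum_congr rfl
  intro r _; ring

lemma dot_sub_right {F : Type} [Field F] {t : ℕ} (w x y : Fin t → F) :
    dot w (fun r => x r - y r) = dot w x - dot w y := by
  unfold dot
  rw [← Finset.sum_sub_distrib]
  apply Finset.sum_congr rfl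
  intro r _; ring

lemma dot_comb_left {F : Type} [Field F] {t : ℕ} (A B : F) (w w' x : Fin t → F) :
    ∑ k, (A * w k - B * w' k) * x k = A * dot w x - B * dot w' x := by
  unfold dot
  rw [Finset.mul_sum, Finset.mul_sum, ← Finset.sum_sub_distrib]
  apply Finset.sum_congr rfl
  intro r _; ring

/-- Value of the homogenized class sum. -/
def hval {F : Type} [CommRing F] {ι J : Type} {t : ℕ} [Fintype J] (I : Finset ι) (c : ι → F)
    (w : J → Fin t → F) (e : ι → J → ℕ) (x : Fin t → F) : F :=
  ∑ i ∈ I, c i * ∏ j, dot (w j) x ^ e i j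

lemma hval_scale {F : Type} [Field F] {ι J : Type} {t : ℕ} [Fintype J] (I : Finset ι) (c : ι → F)
    (w : J → Fin t → F) (e : ι → J → ℕ) (D : ℕ) (hD : ∀ i ∈ I, ∑ j, e i j = D) (x : Fin t → F)
    (a : F) : hval I c w e (fun r => a * x r) = a ^ D * hval I c w e x := by
  unfold hval
  rw [Finset.mul_sum]
  apply Finset.sum_congr rfl
  intro i hi
  have h1 : ∏ j, dot (w j) (fun r => a * x r) ^ e i j = a ^ D * ∏ j, dot (w j) x ^ e i j := by
    rw [← hD i hi, ← Finset.prod_pow_eq_pow_sum, ← Finset.prod_mul_distrib]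
    apply Finset.prod_congr rfl
    intro j _
    rw [dot_smul_right, mul_pow]
  rw [h1]; ring

lemma eval_hval {F : Type} [CommRing F] {ι J : Type} {t : ℕ} [Fintype J] (I : Finset ι) (c : ι → F)
    (w : J → Fin t → F) (e : ι → J → ℕ) (x : Fin t → F) :
    MvPolynomial.eval x (∑ i ∈ I, MvPolynomial.C (c i) * ∏ j, lin (w j) ^ e i j) =
      hval I c w e x := by
  unfold hval dot
  rw [map_sum]
  apply Finset.sum_congr rfl
  intro i _
  rw [map_mul, MvPolynomial.eval_C, map_prod]
  congr 1
  apply Finset.prod_congr rfl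
  intro j _
  rw [map_pow, eval_lin]

lemma totalDegree_hom_le {F : Type} [CommRing F] [Nontrivial F] {ι J : Type} {t : ℕ} [Fintype J] (I : Finset ι)
    (c : ι → F) (w : J → Fin t → F) (e : ι → J → ℕ) (D : ℕ) (hD : ∀ i ∈ I, ∑ j, e i j = D) :
    (∑ i ∈ I, MvPolynomial.C (c i) * ∏ j, lin (w j) ^ e i j).totalDegree ≤ D := by
  apply MvPolynomial.totalDegree_finsetSum_le
  intro i hi
  refine (MvPolynomial.totalDegree_mul _ _).trans ?_
  rw [MvPolynomial.totalDegree_C, zero_add]
  refine (MvPolynomial.totalDegree_finsetProd _ _).trans ?_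
  rw [← hD i hi]
  apply Finset.sum_le_sum
  intro j _
  refine (MvPolynomial.totalDegree_pow _ _).trans ?_
  exact (Nat.mul_le_mul_left _ (totalDegree_lin_le _)).trans (by rw [mul_one])

theorem hit_modp {n m t : ℕ} {ι Q : Type} [Fintype ι] [DecidableEq ι] [DecidableEq Q] (ht : 2 ≤ t)
    (a : Fin m → Fin (n + 1) → ZMod p)
    (hnp : ∀ j j', j ≠ j' → ∃ s s', a j s * a j' s' ≠ a j s' * a j' s)
    (hnc : ∀ j, ∃ s : Fin n, a j s.succ ≠ 0)
    (c : ι → ZMod p) (e r : ι → Fin m → ℕ) (e0 : Fin m → ℕ) (κ : ι → Q) (q : Q)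
    (her : ∀ i, κ i = q → ∀ j, e i j = e0 j + r i j) (D : ℕ)
    (hD : ∀ i, κ i = q → ∑ j, r i j ≤ D) (B : ℕ)
    (hB : Fintype.card ι * (Fintype.card ι * m) ≤ B) (hgood : Good p e 1 B)
    (hκ : ∀ i i', (∀ j, |(e i j : ℤ) - e i' j| ≤ B) → κ i = κ i')
    (hp1 : ((m + 1) ^ t + 1) * n < p) (hp2 : D + (m + 1) < p) (hp3 : (m + 1) * (m + 1) < p)
    (hsize : (Finset.univ.filter fun i => κ i = q).card ≤ t ∨ n < t)
    (hne : ∃ x : Fin (n + 1) → ZMod p,
      hval (Finset.univ.filter fun i => κ i = q) c (vec a) (hex D r) x ≠ 0) :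
    ∃ β γ δ : Fin t → ZMod p, ∀ N, B + Fintype.card ι ≤ N →
      ¬ (X : (ZMod p)[X]) ^ N ∣ ∑ i, C (c i) * ∏ j, (C (a j 0) + ∑ s : Fin n, C (a j s.succ) *
        ∑ k, (C (γ k) + C (δ k) * X) * C (β k) ^ ((s : ℕ) + 1)) ^ e i j := by
  classical
  set I := Finset.univ.filter fun i => κ i = q with hI
  have hmemI : ∀ i, i ∈ I ↔ κ i = q := fun i => by simp [hI]
  have hcardF : (Finset.univ : Finset (ZMod p)).card = p := by
    rw [Finset.card_univ, ZMod.card]
  -- facts on the vectors
  set v := vec a with hv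
  have hv0 : v none = Pi.single 0 1 := rfl
  have hvs : ∀ j, v (some j) = a j := fun j => rfl
  have hnp' : ∀ j j', j ≠ j' → ∃ s s', v j s * v j' s' ≠ v j s' * v j' s := by
    intro j j' hjj
    rcases j with _ | j <;> rcases j' with _ | j'
    · exact absurd rfl hjj
    · obtain ⟨s, hs⟩ := hnc j'
      refine ⟨0, s.succ, ?_⟩
      rw [hv0, hvs]
      simpa using hs
    · obtain ⟨s, hs⟩ := hnc j
      refine ⟨0, s.succ, ?_⟩
      rw [hv0, hvs]
      simpa using hs.symm
    · obtain ⟨s, s', h⟩ := hnp j j' (fun h => hjj (by rw [h]))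
      exact ⟨s, s', h⟩
  -- choice of `β`
  set W : Option (Fin t → Option (Fin m)) → Submodule (ZMod p) (Fin (n + 1) → ZMod p) := fun o =>
    match o with
    | none => if n < t then ⊤ else ⊥
    | some f => Submodule.span (ZMod p) (Set.range fun i => v (f i)) with hW
  have hWfin : ∀ o, Module.finrank (ZMod p) (W o) ≤ t := by
    intro o
    rcases o with _ | f
    · by_cases h : n < t
      · have h1 : W none = ⊤ := by rw [hW]; simp only; rw [if_pos h]
        rw [h1, finrank_top, Module.finrank_fin_fun]; exact h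
      · have h1 : W none = ⊥ := by rw [hW]; simp only; rw [if_neg h]
        rw [h1, finrank_bot]; exact Nat.zero_le _
    · rw [hW]
      simp only
      have := finrank_range_le_card (R := ZMod p) (fun i => v (f i))
      rwa [Fintype.card_fin] at this
  obtain ⟨β, -, hβ⟩ := exists_beta (Finset.univ : Finset (ZMod p)) t W hWfin (by
    rw [hcardF]
    simpa using hp1)
  set M := Mb (n := n) β with hM
  have hMspan : ∀ A : Finset (Option (Fin m)), A.card ≤ t →
      ∀ u ∈ Submodule.span (ZMod p) (v '' A), M u = 0 → u = 0 := by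
    intro A hA u hu hMu
    set f : Fin t → Option (Fin m) := fun k => if h : (k : ℕ) < A.card then
      ((A.equivFin.symm ⟨k, h⟩ : A) : Option (Fin m)) else none with hf
    apply hβ (some f) u
    · have : v '' (A : Set (Option (Fin m))) ⊆ Set.range fun i => v (f i) := by
        rintro _ ⟨j, hj, rfl⟩
        refine ⟨⟨A.equivFin ⟨j, hj⟩, lt_of_lt_of_le (Fin.is_lt _) hA⟩, ?_⟩
        rw [hf]
        simp
      exact Submodule.span_mono this hu
    · intro k
      exact congrFun hMu k
  have hMpair : ∀ j j' (x y : ZMod p), x • M (v j) = y • M (v j') → x • v j = y • v j' := by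
    intro j j' x y h
    have h1 := hMspan {j, j'} ((Finset.card_le_two).trans ht) (x • v j - y • v j') (by
      apply Submodule.sub_mem
      · apply Submodule.smul_mem
        apply Submodule.subset_span
        exact ⟨j, by simp, rfl⟩
      · apply Submodule.smul_mem
        apply Submodule.subset_span
        exact ⟨j', by simp, rfl⟩) (by rw [map_sub, map_smul, map_smul, h, sub_self])
    exact sub_eq_zero.1 h1
  have hvne : ∀ j, v j ≠ 0 := by
    intro j h0
    rcases j with _ | j
    · rw [hv0] at h0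
      have := congrFun h0 0
      simp at this
    · obtain ⟨s, hs⟩ := hnc j
      rw [hvs] at h0
      exact hs (by rw [h0]; rfl)
  have hMne : ∀ j, M (v j) ≠ 0 := by
    intro j h0
    apply hvne j
    have := hMpair j j 1 0 (by rw [h0, smul_zero, smul_zero])
    rwa [one_smul, zero_smul] at this
  -- the homogenized class sum
  set e' := hex D r with he'
  have he'D : ∀ i ∈ I, ∑ j, e' i j = D := by
    intro i hi
    rw [Fintype.sum_option]
    have h1 : e' i none = D - ∑ j, r i j := rfl
    have h2 : ∀ j, e' i (some j) = r i j := fun j => rfl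
    simp only [h1, h2]
    have := hD i ((hmemI i).1 hi)
    omega
  set H := ∑ i ∈ I, MvPolynomial.C (c i) * ∏ j, lin (v j) ^ e' i j with hH
  have hH0 : H ≠ 0 := by
    obtain ⟨x, hx⟩ := hne
    intro h0
    apply hx
    rw [← eval_hval, ← hH, h0, map_zero]
  have hΨH : Psi β H ≠ 0 := by
    rcases hsize with hs | hs
    · exact var_reduction v (Psi β) M (Psi_lin β) t hMspan D c e' I hs he'D hH0
    · apply var_reduction v (Psi β) M (Psi_lin β) (max t I.card) _ D c e' I (le_max_right _ _)
        he'D hH0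
      intro A _ u _ hMu
      apply hβ none u
      · rw [hW]
        simp only
        rw [if_pos hs]
        trivial
      · intro k
        exact congrFun hMu k
  have hΨHeq : Psi β H = ∑ i ∈ I, MvPolynomial.C (c i) * ∏ j, lin (M (v j)) ^ e' i j := by
    rw [hH, map_sum]
    apply Finset.sum_congr rfl
    intro i _
    rw [map_mul, map_prod]
    have h1 : Psi (n := n) β (MvPolynomial.C (c i)) = MvPolynomial.C (c i) :=
      (Psi (n := n) β).commutes (c i)
    rw [h1]
    congr 1
    apply Finset.prod_congr rfl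
    intro j _
    rw [map_pow, Psi_lin]
  rw [hΨHeq] at hΨH
  -- the point
  obtain ⟨x, -, hxH, hx⟩ := exists_point_lin _ hΨH (Finset.univ : Finset (Option (Fin m)))
    (fun j => M (v j)) (fun j _ => hMne j) (Finset.univ : Finset (ZMod p)) (by
      rw [hcardF]
      have h1 := totalDegree_hom_le I c (fun j => M (v j)) e' D he'D
      have h2 : (Finset.univ : Finset (Option (Fin m))).card = m + 1 := by simp
      omega)
  rw [eval_hval I c (fun j => M (v j)) e' x] at hxH
  have hx' : ∀ j, dot (M (v j)) x ≠ 0 := fun j => hx j (Finset.mem_univ j)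
  set lam := (dot (M (v none)) x)⁻¹ with hlam
  set γ : Fin t → ZMod p := fun k => lam * x k with hγ
  have hlam0 : lam ≠ 0 := inv_ne_zero (hx' none)
  have hγH : hval I c (fun j => M (v j)) e' γ ≠ 0 := by
    rw [hγ, hval_scale I c (fun j => M (v j)) e' D he'D]
    exact mul_ne_zero (pow_ne_zero _ hlam0) hxH
  have hγ0 : ∀ j, dot (M (v j)) γ ≠ 0 := by
    intro j
    rw [hγ, dot_smul_right]
    exact mul_ne_zero hlam0 (hx' j)
  have hγ1 : dot (M (v none)) γ = 1 := by
    rw [hγ, dot_smul_right, hlam, inv_mul_cancel₀ (hx' none)]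
  -- the direction
  obtain ⟨d, -, -, hd⟩ := exists_point_lin (1 : MvPolynomial (Fin t) (ZMod p)) one_ne_zero
    (Finset.univ.offDiag : Finset (Option (Fin m) × Option (Fin m)))
    (fun jj k => dot (M (v jj.1)) γ * M (v jj.2) k - dot (M (v jj.2)) γ * M (v jj.1) k) (by
      intro jj hjj h0
      rw [Finset.mem_offDiag] at hjj
      have h1 : dot (M (v jj.2)) γ • M (v jj.1) = dot (M (v jj.1)) γ • M (v jj.2) := by
        funext k
        have := congrFun h0 k
        simp only [Pi.zero_apply, sub_eq_zero] at this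
        simp only [Pi.smul_apply, smul_eq_mul]
        exact this.symm
      have h2 := hMpair _ _ _ _ h1
      obtain ⟨s, s', hss⟩ := hnp' _ _ hjj.2.2
      apply hss
      have h3 := congrFun h2 s
      have h4 := congrFun h2 s'
      simp only [Pi.smul_apply, smul_eq_mul] at h3 h4
      have h5 := hγ0 jj.2
      apply mul_left_cancel₀ h5
      linear_combination v jj.2 s' * h3 - v jj.2 s * h4) (Finset.univ : Finset (ZMod p)) (by
      rw [hcardF, MvPolynomial.totalDegree_one, zero_add]
      have h1 := Finset.offDiag_card (s := (Finset.univ : Finset (Option (Fin m))))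
      have h2 : (Finset.univ : Finset (Option (Fin m))).card = m + 1 := by simp
      rw [h1, h2]
      omega)
  have hd' : ∀ j j', j ≠ j' → dot (M (v j)) γ * dot (M (v j')) d -
      dot (M (v j')) γ * dot (M (v j)) d ≠ 0 := by
    intro j j' hjj
    have h1 := hd (j, j') (Finset.mem_offDiag.2 ⟨Finset.mem_univ _, Finset.mem_univ _, hjj⟩)
    intro h0
    apply h1
    rw [← h0]
    exact dot_comb_left _ _ _ _ _
  set sg := dot (M (v none)) d with hsg
  set δ : Fin t → ZMod p := fun k => d k - sg * γ k with hδ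
  have hδdot : ∀ j, dot (M (v j)) δ = dot (M (v j)) d - sg * dot (M (v j)) γ := by
    intro j
    rw [hδ, dot_sub_right, dot_smul_right]
  refine ⟨β, γ, δ, ?_⟩
  intro N hN hdvd
  -- the restricted forms
  set u : Fin m → (ZMod p)[X] := fun j => C (dot (M (a j)) γ) + C (dot (M (a j)) δ) * X with hu
  have hMnone : ∀ k, M (v none) k = 1 := by
    intro k
    have : M (v none) k = ∑ s, (Pi.single (0 : Fin (n + 1)) (1 : ZMod p) : Fin (n + 1) → ZMod p) s *
      β k ^ (s : ℕ) := rfl
    rw [this, Finset.sum_eq_single 0]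
    · simp
    · intro s _ hs
      rw [Pi.single_eq_of_ne hs, zero_mul]
    · intro h; exact absurd (Finset.mem_univ _) h
  have hγsum : ∑ k, γ k = 1 := by
    rw [← hγ1]
    unfold dot
    apply Finset.sum_congr rfl
    intro k _
    rw [hMnone, one_mul]
  have hδsum : ∑ k, δ k = 0 := by
    have h1 : dot (M (v none)) δ = 0 := by
      rw [hδdot, hγ1, mul_one, hsg, sub_self]
    rw [← h1]
    unfold dot
    apply Finset.sum_congr rfl
    intro k _
    rw [hMnone, one_mul]
  have hueq : ∀ j, (C (a j 0) + ∑ s : Fin n, C (a j s.succ) *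
        ∑ k, (C (γ k) + C (δ k) * X) * C (β k) ^ ((s : ℕ) + 1) : (ZMod p)[X]) = u j := by
    intro j
    have h1 : (C (a j 0) : (ZMod p)[X]) = C (a j 0) * ∑ k, (C (γ k) + C (δ k) * X) *
        C (β k) ^ ((0 : Fin (n + 1)) : ℕ) := by
      have : ∑ k, (C (γ k) + C (δ k) * X) * C (β k) ^ ((0 : Fin (n + 1)) : ℕ) =
          C (∑ k, γ k) + C (∑ k, δ k) * (X : (ZMod p)[X]) := by
        simp only [Fin.val_zero, pow_zero, mul_one, Finset.sum_add_distrib, map_sum,
          Finset.sum_mul]
      rw [this, hγsum, hδsum, C_1, C_0, zero_mul, add_zero, mul_one]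
    rw [h1]
    have h2 : (C (a j 0) * ∑ k, (C (γ k) + C (δ k) * X) * C (β k) ^ ((0 : Fin (n + 1)) : ℕ) +
        ∑ s : Fin n, C (a j s.succ) *
        ∑ k, (C (γ k) + C (δ k) * X) * C (β k) ^ ((s : ℕ) + 1) : (ZMod p)[X]) =
        ∑ s : Fin (n + 1), C (a j s) * ∑ k, (C (γ k) + C (δ k) * X) * C (β k) ^ (s : ℕ) := by
      rw [Fin.sum_univ_succ]
      simp only [Fin.val_succ]
    rw [h2, hu]
    simp only [Finset.mul_sum]
    rw [Finset.sum_comm]
    have h3 : ∀ k, ∑ s : Fin (n + 1), C (a j s) * ((C (γ k) + C (δ k) * X) * C (β k) ^ (s : ℕ)) =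
        (C (γ k) + C (δ k) * X) * C (M (a j) k) := by
      intro k
      have h4 : M (a j) k = ∑ s, a j s * β k ^ (s : ℕ) := rfl
      rw [h4, map_sum, Finset.mul_sum]
      apply Finset.sum_congr rfl
      intro s _
      have h5 : (C (a j s * β k ^ (s : ℕ)) : (ZMod p)[X]) = C (a j s) * C (β k) ^ (s : ℕ) := by
        rw [C_mul, C_pow]
      rw [h5]
      ring
    simp only [h3]
    unfold dot
    simp only [map_sum, add_mul, Finset.sum_add_distrib, Finset.sum_mul]
    congr 1
    · apply Finset.sum_congr rfl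
      intro k _
      have h5 : (C (M (a j) k * γ k) : (ZMod p)[X]) = C (M (a j) k) * C (γ k) := C_mul
      rw [h5]; ring
    · apply Finset.sum_congr rfl
      intro k _
      have h5 : (C (M (a j) k * δ k) : (ZMod p)[X]) = C (M (a j) k) * C (δ k) := C_mul
      rw [h5]; ring
  have hδ0 : ∀ j, dot (M (a j)) δ ≠ 0 := by
    intro j
    have h1 := hd' none (some j) (by simp)
    rw [hγ1, one_mul, ← hsg, mul_comm, ← hδdot] at h1
    exact h1
  have hudeg : ∀ j, (u j).natDegree = 1 := by
    intro j
    rw [hu]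
    simp only
    rw [add_comm]
    exact natDegree_linear (hδ0 j)
  have hcop : Pairwise fun j j' => IsCoprime (u j) (u j') := by
    intro j j' hjj
    apply coprime_lin
    have h1 := hd' (some j) (some j') (fun h => hjj (Option.some_injective _ h))
    have h2 := hδdot (some j)
    have h3 := hδdot (some j')
    simp only [hvs] at h1 h2 h3
    rw [h2, h3]
    intro h0
    apply h1
    linear_combination h0
  have hclass : (∑ i, if κ i = q then C (c i) * tm (fun _ => 1) u e i else 0) ≠ 0 := by
    intro h0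
    rw [← Finset.sum_filter] at h0
    have h1 : ∑ i ∈ I, C (c i) * tm (fun _ => 1) u e i =
        (∏ j, u j ^ e0 j) * ∑ i ∈ I, C (c i) * ∏ j, u j ^ r i j := by
      rw [Finset.mul_sum]
      apply Finset.sum_congr rfl
      intro i hi
      unfold tm pw
      rw [one_mul, mul_left_comm, ← Finset.prod_mul_distrib]
      congr 1
      apply Finset.prod_congr rfl
      intro j _
      rw [← pow_add, her i ((hmemI i).1 hi)]
    rw [h1] at h0
    rcases mul_eq_zero.1 h0 with h2 | h2
    · refine Finset.prod_ne_zero_iff.2 (fun j _ => pow_ne_zero _ ?_) h2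
      intro h3
      have := hudeg j
      rw [h3, natDegree_zero] at this
      omega
    · apply hγH
      have h3 := congrArg (eval 0) h2
      rw [eval_zero, eval_finsetSum] at h3
      rw [← h3]
      unfold hval
      apply Finset.sum_congr rfl
      intro i _
      rw [Fintype.prod_option, eval_mul, eval_C, eval_prod]
      have h4 : dot (M (v none)) γ ^ e' i none = 1 := by rw [hγ1, one_pow]
      rw [h4, one_mul]
      congr 1
      apply Finset.prod_congr rfl
      intro j _
      rw [eval_pow, hu]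
      simp only [eval_add, eval_mul, eval_C, eval_X, mul_zero, add_zero]
      rfl
  apply order_bound (p := p) (fun _ => 1) u e 0 1 B hgood (fun _ => by simp) (fun j => (hudeg j).ge)
    (fun j => (hudeg j).le) hcop κ hκ (by
      have : ∑ j, (u j).natDegree = m := by simp [hudeg]
      rw [this, zero_add]
      exact hB) c q hclass 0 (by
      intro j
      rw [hu]
      simp only [eval_add, eval_mul, eval_C, eval_X, mul_zero, add_zero]
      exact hγ0 (some j)) N hN
  rw [C_0, sub_zero]
  have h5 : ∑ i, C (c i) * tm (fun _ => 1) u e i = ∑ i, C (c i) * ∏ j, (C (a j 0) +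
      ∑ s : Fin n, C (a j s.succ) *
        ∑ k, (C (γ k) + C (δ k) * X) * C (β k) ^ ((s : ℕ) + 1)) ^ e i j := by
    apply Finset.sum_congr rfl
    intro i _
    unfold tm pw
    rw [one_mul]
    congr 1
    apply Finset.prod_congr rfl
    intro j _
    rw [hueq j]
  rw [h5]
  exact hdvd

end Pool.Agent.Helper12_D3
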