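import Mathlib
import Pool.Agent.Helper12_D3.Hit

set_option autoImplicit false
set_option linter.unusedSectionVars false

/-!
From integer polynomials to residues: affine forms, a nonzero value of the homogenized class sum,
clusters of exponent vectors.
-/

namespace Pool.Agent.Helper12_D3

open MvPolynomial

/-- The affine form with coefficient vector `v`, `v 0` being the constant coefficient. -/
noncomputable def aff {R : Type} [CommRing R] {n : ℕ} (v : Fin (n + 1) → R) : MvPolynomial ℕ R :=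
  C (v 0) + ∑ s : Fin n, C (v s.succ) * X (s : ℕ)

/-- Dehomogenization. -/
noncomputable def deh (n : ℕ) : MvPolynomial (Fin (n + 1)) ℤ →ₐ[ℤ] MvPolynomial ℕ ℤ :=
  aeval (Fin.cons 1 fun s : Fin n => X (s : ℕ))

lemma deh_lin {n : ℕ} (v : Fin (n + 1) → ℤ) : deh n (lin v) = aff v := by
  unfold deh aff
  rw [aeval_lin, Fin.sum_univ_succ]
  simp only [Fin.cons_zero, Fin.cons_succ, mul_one]
  rfl

lemma deh_single (n : ℕ) : deh n (lin (Pi.single 0 1)) = 1 := by
  rw [deh_lin]
  unfold aff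
  rw [Pi.single_eq_same, C_1, Finset.sum_eq_zero, add_zero]
  intro s _
  rw [Pi.single_eq_of_ne (Fin.succ_ne_zero s), C_0, zero_mul]

lemma sum_hex {ι : Type} {m : ℕ} (D : ℕ) (r : ι → Fin m → ℕ) (i : ι) (h : ∑ j, r i j ≤ D) :
    ∑ o, hex D r i o = D := by
  rw [Fintype.sum_option]
  simp only [hex]
  omega

lemma exists_int_point {ι : Type} {n m : ℕ} (I : Finset ι) (c : ι → ℤ)
    (a : Fin m → Fin (n + 1) → ℤ) (r : ι → Fin m → ℕ) (D : ℕ) (hD : ∀ i ∈ I, ∑ j, r i j ≤ D)
    (hne : ∑ i ∈ I, C (c i) * ∏ j, aff (a j) ^ r i j ≠ 0) :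
    ∃ x : Fin (n + 1) → ℤ, (∀ s, |x s| ≤ D) ∧ hval I c (vec a) (hex D r) x ≠ 0 := by
  set H : MvPolynomial (Fin (n + 1)) ℤ :=
    ∑ i ∈ I, C (c i) * ∏ o, lin (vec a o) ^ hex D r i o with hH
  have hH0 : H ≠ 0 := by
    intro h0
    apply hne
    rw [← map_zero (deh n), ← h0, hH, map_sum]
    apply Finset.sum_congr rfl
    intro i _
    rw [map_mul, map_prod, Fintype.prod_option]
    have h1 : deh n (C (c i)) = C (c i) := (deh n).commutes (c i)
    have h2 : deh n (lin (vec a none) ^ hex D r i none) = 1 := by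
      rw [map_pow]
      have : vec a none = Pi.single 0 1 := rfl
      rw [this, deh_single, one_pow]
    rw [h1, h2, one_mul]
    congr 1
    apply Finset.prod_congr rfl
    intro j _
    rw [map_pow, deh_lin]
    rfl
  obtain ⟨x, hxS, hx⟩ := exists_point H hH0 (Finset.Icc (0 : ℤ) D) (by
    have h1 : H.totalDegree ≤ D :=
      totalDegree_hom_le I c (vec a) (hex D r) D (fun i hi => sum_hex D r i (hD i hi))
    have h2 : (Finset.Icc (0 : ℤ) D).card = D + 1 := by simp
    omega)
  refine ⟨x, ?_, ?_⟩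
  · intro s
    have := Finset.mem_Icc.1 (hxS s)
    rw [abs_of_nonneg this.1]
    exact this.2
  · rwa [hH, eval_hval] at hx

lemma hval_bound {ι J : Type} [Fintype J] {t : ℕ} (I : Finset ι) (c : ι → ℤ)
    (w : J → Fin t → ℤ) (e : ι → J → ℕ) (x : Fin t → ℤ) (b D : ℕ) (hc : ∀ i, |c i| ≤ 2 ^ b)
    (hw : ∀ j s, |w j s| ≤ 2 ^ b) (hx : ∀ s, |x s| ≤ D) (he : ∀ i ∈ I, ∑ j, e i j = D) :
    |hval I c w e x| ≤ (I.card * (2 ^ b * (t * 2 ^ b * (D + 1)) ^ D) : ℕ) := by
  have hdot : ∀ j, |dot (w j) x| ≤ ((t * 2 ^ b * (D + 1) : ℕ) : ℤ) := by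
    intro j
    unfold dot
    refine (Finset.abs_sum_le_sum_abs _ _).trans ?_
    have h1 : ∀ s ∈ (Finset.univ : Finset (Fin t)), |w j s * x s| ≤ 2 ^ b * (D + 1 : ℤ) := by
      intro s _
      rw [abs_mul]
      apply mul_le_mul (hw j s) ((hx s).trans (by linarith)) (abs_nonneg _) (by positivity)
    refine (Finset.sum_le_sum h1).trans ?_
    rw [Finset.sum_const, Finset.card_univ, Fintype.card_fin, nsmul_eq_mul]
    push_cast
    rw [mul_assoc]
  unfold hval
  refine (Finset.abs_sum_le_sum_abs _ _).trans ?_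
  have h2 : ∀ i ∈ I, |c i * ∏ j, dot (w j) x ^ e i j| ≤
      ((2 ^ b * (t * 2 ^ b * (D + 1)) ^ D : ℕ) : ℤ) := by
    intro i hi
    rw [abs_mul, Finset.abs_prod, Nat.cast_mul]
    apply mul_le_mul _ _ (Finset.prod_nonneg fun _ _ => abs_nonneg _) (by positivity)
    · push_cast; exact hc i
    · rw [Nat.cast_pow, ← he i hi, ← Finset.prod_pow_eq_pow_sum]
      apply Finset.prod_le_prod (fun _ _ => abs_nonneg _)
      intro j _
      rw [abs_pow]
      have h3 := hdot j
      rw [he i hi]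
      exact pow_le_pow_left₀ (abs_nonneg _) h3 _
  refine (Finset.sum_le_sum h2).trans ?_
  rw [Finset.sum_const, nsmul_eq_mul]
  push_cast
  exact le_rfl

lemma map_hval {F F' ι J : Type} [CommRing F] [CommRing F'] {t : ℕ} [Fintype J] (φ : F →+* F')
    (I : Finset ι) (c : ι → F) (w : J → Fin t → F) (e : ι → J → ℕ) (x : Fin t → F) :
    φ (hval I c w e x) = hval I (fun i => φ (c i)) (fun j s => φ (w j s)) e (fun s => φ (x s)) := by
  unfold hval dot
  simp only [map_sum, map_mul, map_prod, map_pow]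

lemma map_vec {R R' : Type} [CommRing R] [CommRing R'] {n m : ℕ} (φ : R →+* R')
    (a : Fin m → Fin (n + 1) → R) :
    (fun j s => φ (vec a j s)) = vec (fun j s => φ (a j s)) := by
  funext o s
  rcases o with _ | j
  · simp only [vec]
    rcases eq_or_ne s 0 with rfl | hs
    · simp
    · rw [Pi.single_eq_of_ne hs, Pi.single_eq_of_ne hs, map_zero]
  · rfl

/-! ### Clusters -/

/-- Terms are adjacent if all their exponents differ by at most `B`. -/
def closeGraph {k m : ℕ} (e : Fin k → Fin m → ℕ) (B : ℕ) : SimpleGraph (Fin k) where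
  Adj i i' := i ≠ i' ∧ ∀ j, e i j ≤ e i' j + B ∧ e i' j ≤ e i j + B
  symm := ⟨fun _ _ h => ⟨h.1.symm, fun j => ⟨(h.2 j).2, (h.2 j).1⟩⟩⟩
  loopless := ⟨fun _ h => h.1 rfl⟩

open scoped Classical in
/-- The connected component of `i` in `closeGraph e B`. -/
noncomputable def cluster {k m : ℕ} (e : Fin k → Fin m → ℕ) (B : ℕ) (i : Fin k) : Finset (Fin k) :=
  Finset.univ.filter fun i' => (closeGraph e B).Reachable i i'

lemma walk_bound {k m : ℕ} (e : Fin k → Fin m → ℕ) (B : ℕ) (j : Fin m) {u v : Fin k}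
    (w : (closeGraph e B).Walk u v) : e u j ≤ e v j + w.length * B := by
  induction w with
  | nil => simp
  | @cons u v w h q ih =>
    rw [SimpleGraph.Walk.length_cons, add_mul, one_mul]
    have := (h.2 j).1
    omega

lemma reach_bound {k m : ℕ} (e : Fin k → Fin m → ℕ) (B : ℕ) (j : Fin m) {u v : Fin k}
    (h : (closeGraph e B).Reachable u v) : e u j ≤ e v j + k * B := by
  classical
  obtain ⟨w⟩ := h
  have h2 := walk_bound e B j w.toPath.1
  have h3 := w.toPath.2.length_lt
  rw [Fintype.card_fin] at h3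
  have h4 : w.toPath.1.length * B ≤ k * B := Nat.mul_le_mul_right _ h3.le
  omega

lemma exists_common {k m : ℕ} (e : Fin k → Fin m → ℕ) (B : ℕ) (i0 : Fin k) :
    ∃ (e0 : Fin m → ℕ) (r : Fin k → Fin m → ℕ), ∀ i, (closeGraph e B).Reachable i0 i → ∀ j,
      e i j = e0 j + r i j ∧ r i j ≤ k * B := by
  classical
  have hne : (cluster e B i0).Nonempty :=
    ⟨i0, by simp [cluster]⟩
  refine ⟨fun j => (cluster e B i0).inf' hne fun i => e i j,
    fun i j => e i j - (cluster e B i0).inf' hne fun i => e i j, ?_⟩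
  intro i hi j
  have hmem : i ∈ cluster e B i0 := by simp [cluster, hi]
  have h1 : (cluster e B i0).inf' hne (fun i => e i j) ≤ e i j := Finset.inf'_le _ hmem
  obtain ⟨i1, hi1, h2⟩ := Finset.exists_mem_eq_inf' hne (fun i => e i j)
  have h3 : (closeGraph e B).Reachable i0 i1 := by simpa [cluster] using hi1
  have h4 := reach_bound e B j (hi.symm.trans h3)
  dsimp only
  constructor
  · omega
  · rw [h2]; omega

end Pool.Agent.Helper12_D3
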