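import Mathlib
import Pool.Agent.Helper12_D3.Int
import Pool.Agent.Helper78_ACIT.Prime

set_option autoImplicit false
set_option linter.unusedSectionVars false

/-!
Choice of the prime and explicit bounds.
-/

namespace Pool.Agent.Helper12_D3

open Polynomial

/-- The logarithmic size of the bad number. -/
def LL (n m k t b B D : ℕ) : ℕ :=
  (((m + 1) ^ t + 1) * n + D + (m + 1) + (m + 1) * (m + 1) + B) *
      (((m + 1) ^ t + 1) * n + D + (m + 1) + (m + 1) * (m + 1) + B) +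
    b * m + (2 * b + 1) * (m * m) + (b + B + 1) * (k * k * m * (2 * B + 1)) +
    (k + (b + (n + 1 + b + (D + 1)) * D))

lemma prod_le_two_pow {α : Type} (s : Finset α) (f : α → ℕ) (u N : ℕ) (hN : s.card ≤ N)
    (h : ∀ x ∈ s, f x ≤ 2 ^ u) : ∏ x ∈ s, f x ≤ 2 ^ (u * N) := by
  have h1 : ∏ x ∈ s, f x ≤ ∏ _x ∈ s, 2 ^ u := Finset.prod_le_prod' h
  refine h1.trans ?_
  rw [Finset.prod_const, ← pow_mul]
  exact Nat.pow_le_pow_right (by norm_num) (Nat.mul_le_mul_left _ hN)

theorem exists_hit (n m k t b : ℕ) (ht : 2 ≤ t) (a : Fin m → Fin (n + 1) → ℤ) (c : Fin k → ℤ)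
    (e : Fin k → Fin m → ℕ) (ha : ∀ j s, |a j s| ≤ 2 ^ b) (hc : ∀ i, |c i| ≤ 2 ^ b)
    (he : ∀ i j, e i j ≤ 2 ^ b) (hnc : ∀ j, ∃ s : Fin n, a j s.succ ≠ 0)
    (hnp : ∀ j j', j ≠ j' → ∃ s s', a j s * a j' s' ≠ a j s' * a j' s)
    (hsize : (∀ i, (cluster e (k * (k * m)) i).card ≤ t) ∨ n < t)
    (hne : ∑ i, MvPolynomial.C (c i) * ∏ j, aff (a j) ^ e i j ≠ 0) :
    ∃ p, p.Prime ∧ p ≤ 64 * (LL n m k t b (k * (k * m)) (m * (k * (k * (k * m)))) + 1) ^ 2 ∧
      ∃ β γ δ : Fin t → ZMod p, ∀ N, k * (k * m) + k ≤ N →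
      ¬ (X : (ZMod p)[X]) ^ N ∣ ∑ i, C (c i : ZMod p) * ∏ j, (C (a j 0 : ZMod p) +
        ∑ s : Fin n, C (a j s.succ : ZMod p) *
        ∑ r, (C (γ r) + C (δ r) * X) * C (β r) ^ ((s : ℕ) + 1)) ^ e i j := by
  classical
  set B := k * (k * m) with hBdef
  set D := m * (k * B) with hDdef
  set G := closeGraph e B with hG
  -- a nonzero class sum
  obtain ⟨q, hq⟩ : ∃ q, ∑ i with G.connectedComponentMk i = q,
      MvPolynomial.C (c i) * ∏ j, aff (a j) ^ e i j ≠ 0 := by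
    by_contra hcon
    push Not at hcon
    apply hne
    rw [← Finset.sum_fiberwise_of_maps_to
      (t := (Finset.univ : Finset (Fin k)).image G.connectedComponentMk)
      (fun i _ => Finset.mem_image_of_mem _ (Finset.mem_univ i))]
    exact Finset.sum_eq_zero fun q _ => hcon q
  set I := Finset.univ.filter fun i => G.connectedComponentMk i = q with hI
  obtain ⟨i0, hi0⟩ : I.Nonempty := by
    rw [Finset.nonempty_iff_ne_empty]
    intro h0
    rw [h0, Finset.sum_empty] at hq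
    exact hq rfl
  have hi0' : G.connectedComponentMk i0 = q := (Finset.mem_filter.1 hi0).2
  have hreach : ∀ i, G.connectedComponentMk i = q → G.Reachable i0 i := by
    intro i hi
    rw [← hi0'] at hi
    exact (SimpleGraph.ConnectedComponent.eq.1 hi).symm
  have hIcl : I = cluster e B i0 := by
    ext i
    rw [hI, cluster, Finset.mem_filter, Finset.mem_filter]
    constructor
    · rintro ⟨_, hi⟩
      exact ⟨Finset.mem_univ _, hreach i hi⟩
    · rintro ⟨_, hi⟩
      refine ⟨Finset.mem_univ _, ?_⟩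
      rw [← hi0']
      exact SimpleGraph.ConnectedComponent.eq.2 hi.symm
  obtain ⟨e0, r, her⟩ := exists_common e B i0
  have hrD : ∀ i, G.connectedComponentMk i = q → ∑ j, r i j ≤ D := by
    intro i hi
    refine (Finset.sum_le_sum fun j _ => (her i (hreach i hi) j).2).trans ?_
    rw [Finset.sum_const, Finset.card_univ, Fintype.card_fin, smul_eq_mul]
  have hred : ∑ i ∈ I, MvPolynomial.C (c i) * ∏ j, aff (a j) ^ r i j ≠ 0 := by
    intro h0
    apply hq
    have h1 : ∑ i ∈ I, MvPolynomial.C (c i) * ∏ j, aff (a j) ^ e i j =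
        (∏ j, aff (a j) ^ e0 j) * ∑ i ∈ I, MvPolynomial.C (c i) * ∏ j, aff (a j) ^ r i j := by
      rw [Finset.mul_sum]
      apply Finset.sum_congr rfl
      intro i hi
      rw [mul_left_comm, ← Finset.prod_mul_distrib]
      congr 1
      apply Finset.prod_congr rfl
      intro j _
      rw [← pow_add, (her i (hreach i (Finset.mem_filter.1 hi).2) j).1]
    rw [h1, h0, mul_zero]
  obtain ⟨x, hxD, hx⟩ := exists_int_point I c a r D
    (fun i hi => hrD i (Finset.mem_filter.1 hi).2) hred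
  choose sj hsj using hnc
  choose! s1 s2 hs12 using hnp
  -- the bad number
  set P1 : ℕ := ((m + 1) ^ t + 1) * n + D + (m + 1) + (m + 1) * (m + 1) + B with hP1
  set Z : Finset ((Fin k × Fin k × Fin m) × ℤ) :=
    (Finset.univ ×ˢ Finset.Icc (-(B : ℤ)) B).filter
      fun z => ((e z.1.1 z.1.2.2 : ℤ) - e z.1.2.1 z.1.2.2) - z.2 ≠ 0 with hZ
  set F1 : ℕ := ∏ j, (a j (sj j).succ).natAbs with hF1
  set F2 : ℕ := ∏ jj ∈ (Finset.univ : Finset (Fin m)).offDiag,
    (a jj.1 (s1 jj.1 jj.2) * a jj.2 (s2 jj.1 jj.2) -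
      a jj.1 (s2 jj.1 jj.2) * a jj.2 (s1 jj.1 jj.2)).natAbs with hF2
  set F3 : ℕ := ∏ z ∈ Z, (((e z.1.1 z.1.2.2 : ℤ) - e z.1.2.1 z.1.2.2) - z.2).natAbs with hF3
  set F4 : ℕ := (hval I c (vec a) (hex D r) x).natAbs with hF4
  have hF1ne : F1 ≠ 0 := Finset.prod_ne_zero_iff.2 fun j _ => Int.natAbs_ne_zero.2 (hsj j)
  have hF2ne : F2 ≠ 0 := Finset.prod_ne_zero_iff.2 fun jj hjj =>
    Int.natAbs_ne_zero.2 (sub_ne_zero.2 (hs12 _ _ (Finset.mem_offDiag.1 hjj).2.2))
  have hF3ne : F3 ≠ 0 := Finset.prod_ne_zero_iff.2 fun z hz =>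
    Int.natAbs_ne_zero.2 (Finset.mem_filter.1 hz).2
  have hF4ne : F4 ≠ 0 := Int.natAbs_ne_zero.2 hx
  have hb1 : P1.factorial ≤ 2 ^ (P1 * P1) := by
    calc P1.factorial ≤ P1 ^ P1 := Nat.factorial_le_pow P1
      _ ≤ (2 ^ P1) ^ P1 := Nat.pow_le_pow_left Nat.lt_two_pow_self.le _
      _ = 2 ^ (P1 * P1) := by rw [← pow_mul]
  have hb2 : F1 ≤ 2 ^ (b * m) := by
    apply prod_le_two_pow _ _ _ _ (by simp)
    intro j _
    have h1 := ha j (sj j).succ
    rw [← Int.natCast_natAbs] at h1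
    exact_mod_cast h1
  have hb3 : F2 ≤ 2 ^ ((2 * b + 1) * (m * m)) := by
    apply prod_le_two_pow
    · rw [Finset.offDiag_card, Finset.card_univ, Fintype.card_fin]
      exact Nat.sub_le _ _
    · intro jj _
      have h1 : |a jj.1 (s1 jj.1 jj.2) * a jj.2 (s2 jj.1 jj.2) -
          a jj.1 (s2 jj.1 jj.2) * a jj.2 (s1 jj.1 jj.2)| ≤ 2 ^ (2 * b + 1) := by
        refine (abs_sub _ _).trans ?_
        rw [abs_mul, abs_mul]
        have h2 := mul_le_mul (ha jj.1 (s1 jj.1 jj.2)) (ha jj.2 (s2 jj.1 jj.2)) (abs_nonneg _)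
          (by positivity)
        have h3 := mul_le_mul (ha jj.1 (s2 jj.1 jj.2)) (ha jj.2 (s1 jj.1 jj.2)) (abs_nonneg _)
          (by positivity)
        have h4 : (2 : ℤ) ^ (2 * b + 1) = 2 ^ b * 2 ^ b + 2 ^ b * 2 ^ b := by
          rw [pow_succ, two_mul, pow_add]; ring
        rw [h4]
        linarith
      rw [← Int.natCast_natAbs] at h1
      exact_mod_cast h1
  have hb4 : F3 ≤ 2 ^ ((b + B + 1) * (k * k * m * (2 * B + 1))) := by
    apply prod_le_two_pow
    · refine (Finset.card_filter_le _ _).trans ?_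
      rw [Finset.card_product, Finset.card_univ, Fintype.card_prod, Fintype.card_prod,
        Fintype.card_fin, Fintype.card_fin, Int.card_Icc]
      have : ((B : ℤ) + 1 - -(B : ℤ)).toNat = 2 * B + 1 := by omega
      rw [this, mul_assoc k k m]
    · intro z hz
      have hz1 := (Finset.mem_product.1 (Finset.mem_filter.1 hz).1).2
      rw [Finset.mem_Icc] at hz1
      have h1 := he z.1.1 z.1.2.2
      have h2 := he z.1.2.1 z.1.2.2
      have h3 : (2 : ℕ) ^ b + B ≤ 2 ^ (b + B + 1) := by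
        have h4 : B < 2 ^ B := Nat.lt_two_pow_self
        have h5 : 2 ^ b ≤ 2 ^ (b + B) := Nat.pow_le_pow_right (by norm_num) (by omega)
        have h6 : 2 ^ B ≤ 2 ^ (b + B) := Nat.pow_le_pow_right (by norm_num) (by omega)
        rw [pow_succ]
        omega
      omega
  have hb5 : F4 ≤ 2 ^ (k + (b + (n + 1 + b + (D + 1)) * D)) := by
    have h1 := hval_bound I c (vec a) (hex D r) x b D hc (by
      intro o s
      rcases o with _ | j
      · simp only [vec]
        rcases eq_or_ne s 0 with rfl | hs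
        · rw [Pi.single_eq_same, abs_one]
          exact one_le_pow₀ (by norm_num)
        · rw [Pi.single_eq_of_ne hs, abs_zero]
          positivity
      · exact ha j s) hxD (fun i hi => sum_hex D r i (hrD i (Finset.mem_filter.1 hi).2))
    rw [← Int.natCast_natAbs] at h1
    have h2 : F4 ≤ I.card * (2 ^ b * ((n + 1) * 2 ^ b * (D + 1)) ^ D) := by exact_mod_cast h1
    refine h2.trans ?_
    have h3 : I.card ≤ 2 ^ k := by
      have h4 : I.card ≤ k := by
        have := Finset.card_le_univ I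
        rwa [Fintype.card_fin] at this
      exact h4.trans Nat.lt_two_pow_self.le
    have h5 : (n + 1) * 2 ^ b * (D + 1) ≤ 2 ^ (n + 1 + b + (D + 1)) := by
      rw [pow_add, pow_add]
      exact Nat.mul_le_mul (Nat.mul_le_mul_right _ Nat.lt_two_pow_self.le) Nat.lt_two_pow_self.le
    calc _ ≤ 2 ^ k * (2 ^ b * (2 ^ (n + 1 + b + (D + 1))) ^ D) :=
          Nat.mul_le_mul h3 (Nat.mul_le_mul_left _ (Nat.pow_le_pow_left h5 _))
      _ = _ := by rw [← pow_mul, ← pow_add, ← pow_add]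
  set NB : ℕ := P1.factorial * F1 * F2 * F3 * F4 with hNB
  have hNBne : NB ≠ 0 := by
    rw [hNB]
    exact mul_ne_zero (mul_ne_zero (mul_ne_zero (mul_ne_zero (Nat.factorial_ne_zero _) hF1ne)
      hF2ne) hF3ne) hF4ne
  have hNBle : NB ≤ 2 ^ LL n m k t b B D := by
    rw [hNB]
    unfold LL
    rw [← hP1, pow_add, pow_add, pow_add, pow_add]
    exact Nat.mul_le_mul (Nat.mul_le_mul (Nat.mul_le_mul (Nat.mul_le_mul hb1 hb2) hb3) hb4) hb5
  obtain ⟨p, hp, hple, hpnd⟩ := Helper78_ACIT.exists_prime_not_dvd NB _ hNBne hNBle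
  have : Fact p.Prime := ⟨hp⟩
  refine ⟨p, hp, hple, ?_⟩
  have hnd : ∀ x, x ∣ NB → ¬ p ∣ x := fun x hx h => hpnd (h.trans hx)
  have hcast : ∀ z : ℤ, z.natAbs ∣ NB → (z : ZMod p) ≠ 0 := by
    intro z hz h0
    rw [ZMod.intCast_zmod_eq_zero_iff_dvd, Int.natCast_dvd] at h0
    exact hnd _ hz h0
  have hpP1 : P1 < p := by
    by_contra hcon
    push Not at hcon
    apply hnd P1.factorial
    · rw [hNB]
      exact (((Dvd.intro _ rfl).mul_right _).mul_right _).mul_right _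
    · exact hp.dvd_factorial.2 hcon
  have hdF1 : F1 ∣ NB := by
    rw [hNB]
    exact (((Dvd.intro_left _ rfl).mul_right _).mul_right _).mul_right _
  have hdF2 : F2 ∣ NB := by
    rw [hNB]
    exact ((Dvd.intro_left _ rfl).mul_right _).mul_right _
  have hdF3 : F3 ∣ NB := by
    rw [hNB]
    exact (Dvd.intro_left _ rfl).mul_right _
  have hdF4 : F4 ∣ NB := by
    rw [hNB]
    exact Dvd.intro_left _ rfl
  have hgood : Good p e 1 B := by
    refine ⟨by omega, ?_⟩
    intro i i' j a' b' h1 h2 hb' hne' hdvd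
    have ha' : a' = 1 := le_antisymm (by exact_mod_cast h2) h1
    rw [ha', one_mul] at hne' hdvd
    have hz : ((i, i', j), b') ∈ Z := by
      rw [hZ, Finset.mem_filter, Finset.mem_product, Finset.mem_Icc]
      rw [abs_le] at hb'
      exact ⟨⟨Finset.mem_univ _, hb'⟩, sub_ne_zero.2 hne'⟩
    have h3 := hcast (((e i j : ℤ) - e i' j) - b')
      ((Finset.dvd_prod_of_mem (fun z : (Fin k × Fin k × Fin m) × ℤ =>
        (((e z.1.1 z.1.2.2 : ℤ) - e z.1.2.1 z.1.2.2) - z.2).natAbs) hz).trans hdF3)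
    apply h3
    rw [ZMod.intCast_zmod_eq_zero_iff_dvd]
    exact hdvd
  obtain ⟨β, γ, δ, hhit⟩ := hit_modp (p := p) (n := n) (m := m) (t := t) ht
    (fun j s => (a j s : ZMod p)) (by
      intro j j' hjj
      refine ⟨s1 j j', s2 j j', ?_⟩
      have hmem : (j, j') ∈ (Finset.univ : Finset (Fin m)).offDiag :=
        Finset.mem_offDiag.2 ⟨Finset.mem_univ _, Finset.mem_univ _, hjj⟩
      have h3 := hcast (a j (s1 j j') * a j' (s2 j j') - a j (s2 j j') * a j' (s1 j j'))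
        ((Finset.dvd_prod_of_mem (fun jj : Fin m × Fin m =>
          (a jj.1 (s1 jj.1 jj.2) * a jj.2 (s2 jj.1 jj.2) -
            a jj.1 (s2 jj.1 jj.2) * a jj.2 (s1 jj.1 jj.2)).natAbs) hmem).trans hdF2)
      intro h0
      apply h3
      push_cast
      rw [h0, sub_self]) (by
      intro j
      exact ⟨sj j, hcast _ ((Finset.dvd_prod_of_mem (fun j => (a j (sj j).succ).natAbs)
        (Finset.mem_univ j)).trans hdF1)⟩)
    (fun i => (c i : ZMod p)) e r e0 G.connectedComponentMk q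
    (fun i hi j => (her i (hreach i hi) j).1) D hrD B (by rw [Fintype.card_fin]) hgood (by
      intro i i' h
      by_cases hii : i = i'
      · rw [hii]
      · apply SimpleGraph.ConnectedComponent.sound
        apply SimpleGraph.Adj.reachable
        refine ⟨hii, fun j => ?_⟩
        have := h j
        rw [abs_le] at this
        constructor <;> omega) (by omega) (by omega) (by omega) (by
      rcases hsize with h | h
      · left
        have : (Finset.univ.filter fun i => G.connectedComponentMk i = q) = cluster e B i0 := hIcl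
        rw [this]
        exact h i0
      · exact Or.inr h) (by
      refine ⟨fun s => (x s : ZMod p), ?_⟩
      have h1 := map_hval (Int.castRingHom (ZMod p)) I c (vec a) (hex D r) x
      have h2 := map_vec (Int.castRingHom (ZMod p)) a
      rw [h2] at h1
      have h3 := hcast (hval I c (vec a) (hex D r) x) hdF4
      intro h0
      apply h3
      have h4 : ((hval I c (vec a) (hex D r) x : ℤ) : ZMod p) =
          Int.castRingHom (ZMod p) (hval I c (vec a) (hex D r) x) := rfl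
      rw [h4, h1]
      exact h0)
  refine ⟨β, γ, δ, fun N hN => ?_⟩
  exact hhit N (by rw [Fintype.card_fin]; exact hN)

/-- The explicit bound on the primes. -/
theorem bound_le (n m k t b : ℕ) :
    64 * (LL n m k t b (k * (k * m)) (m * (k * (k * (k * m)))) + 1) ^ 2 ≤
      (n + m + k + b + 2) ^ (4 * (t + 11)) := by
  obtain ⟨R, hR⟩ : ∃ R, R = n + m + k + b + 2 := ⟨_, rfl⟩
  rw [← hR]
  have hn : n ≤ R := by omega
  have hm : m ≤ R := by omega
  have hm1 : m + 1 ≤ R := by omega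
  have hk : k ≤ R := by omega
  have hb : b ≤ R := by omega
  have h2 : 2 ≤ R := by omega
  clear hR
  have hmono : ∀ {i j : ℕ}, i ≤ j → R ^ i ≤ R ^ j := fun h => Nat.pow_le_pow_right (by omega) h
  have h4 : 4 ≤ R ^ 2 := by
    calc 4 = 2 ^ 2 := by norm_num
      _ ≤ R ^ 2 := Nat.pow_le_pow_left h2 2
  have h8 : 8 ≤ R ^ 3 := by
    calc 8 = 2 ^ 3 := by norm_num
      _ ≤ R ^ 3 := Nat.pow_le_pow_left h2 3
  have hR1 : ∀ {i : ℕ}, 1 ≤ i → R ≤ R ^ i := fun h => by
    calc R = R ^ 1 := (pow_one R).symm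
      _ ≤ _ := hmono h
  have hpos : ∀ i, 1 ≤ R ^ i := fun i => Nat.one_le_pow _ _ (by omega)
  obtain ⟨B, hB⟩ : ∃ B, B = k * (k * m) := ⟨_, rfl⟩
  obtain ⟨D, hD⟩ : ∃ D, D = m * (k * B) := ⟨_, rfl⟩
  have hBle : B ≤ R ^ 3 := by
    rw [hB]
    calc k * (k * m) ≤ R * (R * R) := Nat.mul_le_mul hk (Nat.mul_le_mul hk hm)
      _ = R ^ 3 := by ring
  have hDle : D ≤ R ^ 5 := by
    rw [hD]
    calc m * (k * B) ≤ R * (R * R ^ 3) := Nat.mul_le_mul hm (Nat.mul_le_mul hk hBle)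
      _ = R ^ 5 := by ring
  rw [← hB, ← hD]
  clear hB hD
  -- P1
  obtain ⟨P, hP⟩ : ∃ P, P = ((m + 1) ^ t + 1) * n + D + (m + 1) + (m + 1) * (m + 1) + B :=
    ⟨_, rfl⟩
  have hP1 : P ≤ R ^ (t + 8) := by
    have e1 : ((m + 1) ^ t + 1) * n ≤ 2 * R ^ (t + 5) := by
      have : (m + 1) ^ t ≤ R ^ t := Nat.pow_le_pow_left hm1 t
      calc ((m + 1) ^ t + 1) * n ≤ (R ^ t + R ^ t) * R :=
            Nat.mul_le_mul (add_le_add this (hpos t)) hn
        _ = 2 * R ^ (t + 1) := by rw [pow_succ]; ring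
        _ ≤ 2 * R ^ (t + 5) := Nat.mul_le_mul_left _ (hmono (by omega))
    have e2 : D ≤ R ^ (t + 5) := hDle.trans (hmono (by omega))
    have e3 : m + 1 ≤ R ^ (t + 5) := hm1.trans (hR1 (by omega))
    have e4 : (m + 1) * (m + 1) ≤ R ^ (t + 5) := by
      calc (m + 1) * (m + 1) ≤ R * R := Nat.mul_le_mul hm1 hm1
        _ = R ^ 2 := by ring
        _ ≤ _ := hmono (by omega)
    have e5 : B ≤ R ^ (t + 5) := hBle.trans (hmono (by omega))
    rw [hP]
    calc _ ≤ 2 * R ^ (t + 5) + R ^ (t + 5) + R ^ (t + 5) + R ^ (t + 5) + R ^ (t + 5) :=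
          add_le_add (add_le_add (add_le_add (add_le_add e1 e2) e3) e4) e5
      _ = 6 * R ^ (t + 5) := by ring
      _ ≤ 8 * R ^ (t + 5) := Nat.mul_le_mul_right _ (by norm_num)
      _ ≤ R ^ 3 * R ^ (t + 5) := Nat.mul_le_mul_right _ h8
      _ = R ^ (t + 8) := by rw [← pow_add]; congr 1; omega
  have q1 : P * P ≤ R ^ (2 * t + 16) := by
    calc _ ≤ R ^ (t + 8) * R ^ (t + 8) := Nat.mul_le_mul hP1 hP1
      _ = R ^ (2 * t + 16) := by rw [← pow_add]; congr 1; omega
  have q2 : b * m ≤ R ^ (2 * t + 16) := by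
    calc b * m ≤ R * R := Nat.mul_le_mul hb hm
      _ = R ^ 2 := by ring
      _ ≤ _ := hmono (by omega)
  have q3 : (2 * b + 1) * (m * m) ≤ R ^ (2 * t + 16) := by
    have : 2 * b + 1 ≤ R ^ 3 := by
      calc 2 * b + 1 ≤ 2 * R + R := add_le_add (Nat.mul_le_mul_left _ hb) (by omega)
        _ ≤ 4 * R := by omega
        _ ≤ R ^ 2 * R := Nat.mul_le_mul_right _ h4
        _ = R ^ 3 := by ring
    calc (2 * b + 1) * (m * m) ≤ R ^ 3 * (R * R) := Nat.mul_le_mul this (Nat.mul_le_mul hm hm)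
      _ = R ^ 5 := by ring
      _ ≤ _ := hmono (by omega)
  have q4 : (b + B + 1) * (k * k * m * (2 * B + 1)) ≤ R ^ (2 * t + 16) := by
    have r1 : b + B + 1 ≤ R ^ 5 := by
      calc b + B + 1 ≤ R ^ 3 + R ^ 3 + R ^ 3 :=
            add_le_add (add_le_add (hb.trans (hR1 (by norm_num))) hBle) (hpos 3)
        _ ≤ 4 * R ^ 3 := by omega
        _ ≤ R ^ 2 * R ^ 3 := Nat.mul_le_mul_right _ h4
        _ = R ^ 5 := by ring
    have r2 : 2 * B + 1 ≤ R ^ 5 := by
      calc 2 * B + 1 ≤ 2 * R ^ 3 + R ^ 3 := add_le_add (Nat.mul_le_mul_left _ hBle) (hpos 3)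
        _ ≤ 4 * R ^ 3 := by omega
        _ ≤ R ^ 2 * R ^ 3 := Nat.mul_le_mul_right _ h4
        _ = R ^ 5 := by ring
    calc _ ≤ R ^ 5 * (R * R * R * R ^ 5) :=
          Nat.mul_le_mul r1 (Nat.mul_le_mul (Nat.mul_le_mul (Nat.mul_le_mul hk hk) hm) r2)
      _ = R ^ 13 := by ring
      _ ≤ _ := hmono (by omega)
  have q5 : k + (b + (n + 1 + b + (D + 1)) * D) ≤ 3 * R ^ (2 * t + 16) := by
    have r1 : n + 1 + b + (D + 1) ≤ R ^ 8 := by
      calc n + 1 + b + (D + 1) ≤ R ^ 5 + R ^ 5 + R ^ 5 + (R ^ 5 + R ^ 5) :=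
            add_le_add (add_le_add (add_le_add (hn.trans (hR1 (by norm_num))) (hpos 5))
              (hb.trans (hR1 (by norm_num)))) (add_le_add hDle (hpos 5))
        _ ≤ 8 * R ^ 5 := by omega
        _ ≤ R ^ 3 * R ^ 5 := Nat.mul_le_mul_right _ h8
        _ = R ^ 8 := by ring
    have r2 : (n + 1 + b + (D + 1)) * D ≤ R ^ (2 * t + 16) := by
      calc _ ≤ R ^ 8 * R ^ 5 := Nat.mul_le_mul r1 hDle
        _ = R ^ 13 := by ring
        _ ≤ _ := hmono (by omega)
    have r3 : R ≤ R ^ (2 * t + 16) := hR1 (by omega)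
    calc _ ≤ R ^ (2 * t + 16) + (R ^ (2 * t + 16) + R ^ (2 * t + 16)) :=
          add_le_add (hk.trans r3) (add_le_add (hb.trans r3) r2)
      _ = 3 * R ^ (2 * t + 16) := by ring
  have hL : LL n m k t b B D + 1 ≤ R ^ (2 * t + 19) := by
    unfold LL
    rw [← hP]
    calc _ ≤ R ^ (2 * t + 16) + R ^ (2 * t + 16) + R ^ (2 * t + 16) + R ^ (2 * t + 16) +
          3 * R ^ (2 * t + 16) + R ^ (2 * t + 16) :=
          add_le_add (add_le_add (add_le_add (add_le_add (add_le_add q1 q2) q3) q4) q5) (hpos _)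
      _ = 8 * R ^ (2 * t + 16) := by ring
      _ ≤ R ^ 3 * R ^ (2 * t + 16) := Nat.mul_le_mul_right _ h8
      _ = R ^ (2 * t + 19) := by rw [← pow_add]; congr 1; omega
  calc 64 * (LL n m k t b B D + 1) ^ 2 ≤ R ^ 6 * (R ^ (2 * t + 19)) ^ 2 := by
        apply Nat.mul_le_mul _ (Nat.pow_le_pow_left hL 2)
        calc 64 = 2 ^ 6 := by norm_num
          _ ≤ R ^ 6 := Nat.pow_le_pow_left h2 6
    _ = R ^ (4 * (t + 11)) := by rw [← pow_mul, ← pow_add]; congr 1; omega

end Pool.Agent.Helper12_D3
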